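import Pool.Agent.Q16.TS.Defs
import Pool.Agent.Q16.LS.PTori
set_option autoImplicit false

/-!
The polynomials of a side: products of cyclotomic polynomials, degrees, Newton polytopes.
-/

namespace Pool.Agent.Q16.TS

open MvPolynomial

open Pool.Agent.Q16.LS

open Pool.Agent.Q16.BF (IsSplitPoly IsCyclotomicPoly)

section split

variable {K : Type*} [Field K] {N : ℕ}

theorem split_one : IsSplitPoly (1 : MvPolynomial (Fin N) K) := ⟨[], by simp, by simp⟩

theorem split_mul {p q : MvPolynomial (Fin N) K} (hp : IsSplitPoly p) (hq : IsSplitPoly q) :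
    IsSplitPoly (p * q) := by
  obtain ⟨l, hl, rfl⟩ := hp
  obtain ⟨l', hl', rfl⟩ := hq
  refine ⟨l ++ l', fun q hq => ?_, by rw [List.prod_append]⟩
  rcases List.mem_append.1 hq with h | h
  · exact hl q h
  · exact hl' q h

theorem split_pow {p : MvPolynomial (Fin N) K} (hp : IsSplitPoly p) (m : ℕ) :
    IsSplitPoly (p ^ m) := by
  induction m with
  | zero => rw [pow_zero]; exact split_one
  | succ m ih => rw [pow_succ]; exact split_mul ih hp

theorem split_prod {ι : Type*} (S : Finset ι) (f : ι → MvPolynomial (Fin N) K)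
    (hf : ∀ i ∈ S, IsSplitPoly (f i)) : IsSplitPoly (∏ i ∈ S, f i) := by
  classical
  induction S using Finset.induction_on with
  | empty => rw [Finset.prod_empty]; exact split_one
  | insert a S ha ih =>
    rw [Finset.prod_insert ha]
    exact split_mul (hf a (Finset.mem_insert_self _ _))
      (ih fun i hi => hf i (Finset.mem_insert_of_mem hi))

theorem split_uv (j : Fin N) {q : Polynomial K} (hq : q.Monic) {m : ℕ} (hm : m ≠ 0)
    (h : q ∣ Polynomial.X ^ m - 1) : IsSplitPoly (uv j q) := by
  refine ⟨[uv j q], fun q' hq' => ?_, by simp⟩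
  rw [List.mem_singleton] at hq'
  subst hq'
  refine Or.inr ⟨q, m, Finsupp.single j 1, 0, hm, hq, h,
    Finsupp.single_ne_zero.2 one_ne_zero, ?_⟩
  unfold uv
  rw [Polynomial.aeval_def, Polynomial.eval₂_eq_sum_range]
  refine Finset.sum_congr rfl fun i _ => ?_
  rw [smul_zero, add_zero, algebraMap_eq, C_mul_X_pow_eq_monomial, Finsupp.smul_single, smul_eq_mul,
    mul_one]

end split

section coeff

variable {K : Type*} [Field K] {n : ℕ}

/-- The coefficients of the product of a polynomial in `x_j` and a polynomial without `x_j`. -/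
theorem coeff_uv_mul (j : Fin n) (F : Polynomial K) {G : MvPolynomial (Fin n) K}
    (hG : ∀ m ∈ G.support, m j = 0) (m : Fin n →₀ ℕ) :
    coeff m (uv j F * G) = F.coeff (m j) * coeff (m.erase j) G := by
  classical
  rw [uv_eq_sum, Finset.sum_mul, coeff_sum]
  have h1 : ∀ i, coeff m (monomial (Finsupp.single j i) (F.coeff i) * G) =
      if i = m j then F.coeff (m j) * coeff (m.erase j) G else 0 := by
    intro i
    rw [coeff_monomial_mul']
    by_cases hi : i = m j
    · subst hi
      rw [if_pos rfl, if_pos]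
      · congr 2
        ext l
        by_cases hl : l = j
        · subst hl
          simp
        · rw [Finsupp.tsub_apply, Finsupp.single_eq_of_ne hl, Finsupp.erase_ne hl, tsub_zero]
      · rw [Finsupp.single_le_iff]
    · rw [if_neg hi]
      split_ifs with hle
      · rw [Finsupp.single_le_iff] at hle
        have h2 : coeff (m - Finsupp.single j i) G = 0 := by
          by_contra hne
          have h3 := hG _ (mem_support_iff.2 hne)
          rw [Finsupp.tsub_apply, Finsupp.single_eq_same] at h3
          omega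
        rw [h2, mul_zero]
      · rfl
  simp only [h1]
  rw [Finset.sum_ite_eq' F.support (m j)]
  split_ifs with hm
  · rfl
  · rw [Polynomial.notMem_support_iff.1 hm, zero_mul]

/-- The coefficients of a product of polynomials in one variable each. -/
theorem prod_uv (F : Fin n → Polynomial K) (S : Finset (Fin n)) :
    (∀ m ∈ (∏ j ∈ S, uv j (F j)).support, ∀ j, j ∉ S → m j = 0) ∧
    ∀ m : Fin n →₀ ℕ, (∀ j, j ∉ S → m j = 0) →
      coeff m (∏ j ∈ S, uv j (F j)) = ∏ j ∈ S, (F j).coeff (m j) := by
  classical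
  induction S using Finset.induction_on with
  | empty =>
    refine ⟨fun m hm j _ => ?_, fun m hm => ?_⟩
    · rw [Finset.prod_empty, support_one, Finset.mem_singleton] at hm
      rw [hm]
      rfl
    · have h0 : m = 0 := by
        ext j
        exact hm j (Finset.notMem_empty j)
      rw [Finset.prod_empty, Finset.prod_empty, h0, coeff_one, if_pos rfl]
  | insert a S ha ih =>
    obtain ⟨ih1, ih2⟩ := ih
    have hG : ∀ m ∈ (∏ j ∈ S, uv j (F j)).support, m a = 0 := fun m hm => ih1 m hm a ha
    have hco := fun m => coeff_uv_mul a (F a) hG m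
    refine ⟨fun m hm j hj => ?_, fun m hm => ?_⟩
    · rw [Finset.prod_insert ha, mem_support_iff, hco] at hm
      have h1 : coeff (m.erase a) (∏ j ∈ S, uv j (F j)) ≠ 0 := right_ne_zero_of_mul hm
      rw [Finset.mem_insert, not_or] at hj
      have h2 := ih1 _ (mem_support_iff.2 h1) j hj.2
      rwa [Finsupp.erase_ne hj.1] at h2
    · rw [Finset.prod_insert ha, hco, Finset.prod_insert ha]
      congr 1
      rw [ih2]
      · refine Finset.prod_congr rfl fun j hj => ?_
        have hja : j ≠ a := fun h => ha (h ▸ hj)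
        rw [Finsupp.erase_ne hja]
      · intro j hj
        by_cases hja : j = a
        · subst hja
          exact Finsupp.erase_same
        · rw [Finsupp.erase_ne hja]
          exact hm j fun h => (Finset.mem_insert.1 h).elim hja hj

theorem pD_eq (l : Fin n → ℕ) : pD K l = monomial (Finsupp.equivFunOnFinite.symm l) 1 := by
  classical
  unfold pD
  rw [monomial_eq, C_1, one_mul, Finsupp.prod_fintype _ _ fun i => pow_zero _]
  rfl

end coeff

namespace Side

variable {K : Type*} [Field K] {n : ℕ} {A : Side K n}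

/-- The polynomial in one variable. -/
noncomputable def F (A : Side K n) (j : Fin (n + 1)) : Polynomial K :=
  ∏ i, A.h j i ^ (A.w j i + 1)

theorem P_eq (A : Side K n) : A.P = ∏ j, uv j (A.F j) := by
  unfold P F
  refine Finset.prod_congr rfl fun j _ => ?_
  unfold uv
  rw [map_prod]
  refine Finset.prod_congr rfl fun i _ => ?_
  rw [map_pow]

theorem Cyc.F_monic (hA : A.Cyc) (j : Fin (n + 1)) : (A.F j).Monic :=
  Polynomial.monic_prod_of_monic _ _ fun i _ => (hA.monic j i).pow _

theorem Cyc.natDegree_F (hA : A.Cyc) (j : Fin (n + 1)) : (A.F j).natDegree = A.deg j := by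
  unfold F deg
  rw [Polynomial.natDegree_prod_of_monic _ _ fun i _ => (hA.monic j i).pow _]
  refine Finset.sum_congr rfl fun i _ => ?_
  rw [(hA.monic j i).natDegree_pow]

theorem Cyc.eval_zero (hA : A.Cyc) (j : Fin (n + 1)) (i : Fin (A.r j + 1)) :
    ∃ m : ℕ, m ≠ 0 ∧ (A.h j i).eval 0 ^ m = 1 := by
  obtain ⟨m, hm, hd⟩ := hA.cyc j i
  refine ⟨m * 2, mul_ne_zero hm two_ne_zero, ?_⟩
  set g : K →+* AlgebraicClosure K := algebraMap K (AlgebraicClosure K) with hg
  apply g.injective
  set q := (A.h j i).map g with hq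
  have hqm : q.Monic := (hA.monic j i).map g
  have h1 : g ((A.h j i).eval 0) = q.coeff 0 := by
    rw [hq, Polynomial.coeff_map, Polynomial.coeff_zero_eq_eval_zero]
  have h2 := (IsAlgClosed.splits q).coeff_zero_eq_prod_roots_of_monic hqm
  have h3 : q.roots.prod ^ m = 1 := by
    have e : q.roots.prod ^ m = (q.roots.map fun x => x ^ m).prod := by
      rw [Multiset.prod_map_pow, Multiset.map_id']
    rw [e]
    refine Multiset.prod_eq_one fun x hx => ?_
    obtain ⟨y, hy, rfl⟩ := Multiset.mem_map.1 hx
    have h4 : q.eval y = 0 := (Polynomial.mem_roots'.1 hy).2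
    obtain ⟨R, hR⟩ := hd
    have h5 := congrArg (fun p => (p.map g).eval y) hR
    simp only [Polynomial.map_sub, Polynomial.map_pow, Polynomial.map_X, Polynomial.map_one,
      Polynomial.map_mul, Polynomial.eval_sub, Polynomial.eval_pow, Polynomial.eval_X,
      Polynomial.eval_one, Polynomial.eval_mul] at h5
    rw [← hq, h4, zero_mul, sub_eq_zero] at h5
    exact h5
  rw [map_pow, h1, h2, map_one, mul_pow, pow_mul _ m 2, pow_mul _ m 2, h3, one_pow, mul_one,
    ← pow_mul, ← pow_mul, mul_comm, pow_mul]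
  simp

theorem Cyc.F_zero (hA : A.Cyc) (j : Fin (n + 1)) : (A.F j).coeff 0 ≠ 0 := by
  unfold F
  rw [Polynomial.coeff_zero_eq_eval_zero, Polynomial.eval_prod]
  refine Finset.prod_ne_zero_iff.2 fun i _ => ?_
  rw [Polynomial.eval_pow]
  refine pow_ne_zero _ fun h => ?_
  obtain ⟨m, hm, h1⟩ := hA.eval_zero j i
  rw [h, zero_pow hm] at h1
  exact zero_ne_one h1

theorem Cyc.split (hA : A.Cyc) : IsSplitPoly A.P := by
  unfold P
  refine split_prod _ _ fun j _ => split_prod _ _ fun i _ => split_pow ?_ _
  obtain ⟨m, hm, hd⟩ := hA.cyc j i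
  exact split_uv j (hA.monic j i) hm hd

theorem Cyc.P_ne_zero (hA : A.Cyc) : A.P ≠ 0 := by
  rw [P_eq]
  exact Finset.prod_ne_zero_iff.2 fun j _ => uv_ne_zero j (hA.F_monic j).ne_zero

theorem degreeOf_uv_zero {j : Fin (n + 1)} (hj : j ≠ 0) (q : Polynomial K) :
    (uv j q).degreeOf 0 = 0 := by
  classical
  rw [degreeOf_eq_sup]
  refine Nat.eq_zero_of_le_zero (Finset.sup_le fun m hm => ?_)
  obtain ⟨i, -, rfl⟩ := exists_of_mem_support_uv hm
  rw [Finsupp.single_eq_of_ne (Ne.symm hj)]

theorem degreeOf_uv_self (q : Polynomial K) :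
    (uv (0 : Fin (n + 1)) q).degreeOf 0 = q.natDegree := by
  classical
  rw [degreeOf_eq_sup]
  refine le_antisymm (Finset.sup_le fun m hm => ?_) ?_
  · obtain ⟨i, hi, rfl⟩ := exists_of_mem_support_uv hm
    rw [Finsupp.single_eq_same]
    exact Polynomial.le_natDegree_of_mem_supp i hi
  · by_cases hq : q = 0
    · rw [hq, Polynomial.natDegree_zero]
      exact Nat.zero_le _
    · have h1 : Finsupp.single (0 : Fin (n + 1)) q.natDegree ∈ (uv 0 q).support := by
        rw [mem_support_iff, coeff_uv_single, Polynomial.coeff_natDegree]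
        exact Polynomial.leadingCoeff_ne_zero.2 hq
      have h2 := Finset.le_sup (f := fun m : Fin (n + 1) →₀ ℕ => m 0) h1
      simpa using h2

theorem Cyc.degree (hA : A.Cyc) : A.P.degreeOf 0 = A.l 0 + 1 := by
  rw [P_eq, degreeOf_prod_eq _ _ fun j _ => uv_ne_zero j (hA.F_monic j).ne_zero,
    Fin.sum_univ_succ, Finset.sum_eq_zero fun j _ => degreeOf_uv_zero (Fin.succ_ne_zero j) _,
    add_zero, degreeOf_uv_self, hA.natDegree_F, hA.top]

theorem M_eq (A : Side K n) : A.M = monomial (Finsupp.equivFunOnFinite.symm A.l) 1 := pD_eq _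

theorem renM {ι : Type*} (f : Fin (n + 1) → ι) :
    rename f A.M = monomial ((Finsupp.equivFunOnFinite.symm A.l).mapDomain f) 1 := by
  rw [M_eq, rename_monomial]

theorem degreeOf_M (A : Side K n) : A.M.degreeOf 0 = A.l 0 := by
  rw [M_eq, degreeOf_monomial_eq _ _ one_ne_zero]
  rfl

theorem M_ne_zero (A : Side K n) : A.M ≠ 0 := by
  rw [M_eq]
  exact monomial_eq_zero.not.2 one_ne_zero

theorem interior {m : ℕ} (hA : A.Cyc) :
    InteriorH A.P (rename Sum.inl A.M : MvPolynomial (Fin (n + 1) ⊕ Fin m) K) := by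
  classical
  intro u hu b hb
  rw [renM] at hb
  have hb' := Finset.mem_singleton.1 (support_monomial_subset hb)
  have hbi : ∀ i, b (Sum.inl i) = A.l i := by
    intro i
    rw [hb', Finsupp.mapDomain_apply Sum.inl_injective]
    rfl
  set a : Fin (n + 1) →₀ ℕ := Finsupp.equivFunOnFinite.symm fun i =>
    if 0 < u i then A.deg i else 0 with ha
  have hai : ∀ i, a i = if 0 < u i then A.deg i else 0 := fun i => rfl
  refine ⟨a, ?_, ?_⟩
  · rw [mem_support_iff, P_eq, (prod_uv A.F Finset.univ).2 a fun j hj =>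
      absurd (Finset.mem_univ j) hj]
    refine Finset.prod_ne_zero_iff.2 fun j _ => ?_
    rw [hai]
    split_ifs
    · rw [← hA.natDegree_F, Polynomial.coeff_natDegree, (hA.F_monic j).leadingCoeff]
      exact one_ne_zero
    · exact hA.F_zero j
  · have key : ∀ i, u i * (b (Sum.inl i) : ℤ) ≤ u i * (a i : ℤ) ∧
        (u i ≠ 0 → u i * (b (Sum.inl i) : ℤ) < u i * (a i : ℤ)) := by
      intro i
      rw [hbi, hai]
      have h1 : (0 : ℤ) < A.l i := by exact_mod_cast hA.l_pos i
      have h2 : (A.l i : ℤ) < A.deg i := by exact_mod_cast hA.l_lt i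
      split_ifs with h
      · exact ⟨by nlinarith, fun _ => by nlinarith⟩
      · rw [not_lt] at h
        refine ⟨?_, fun hne => ?_⟩
        · rw [Nat.cast_zero, mul_zero]
          exact mul_nonpos_of_nonpos_of_nonneg h h1.le
        · rw [Nat.cast_zero, mul_zero]
          exact mul_neg_of_neg_of_pos (lt_of_le_of_ne h hne) h1
    obtain ⟨i, hi⟩ := Function.ne_iff.1 hu
    exact Finset.sum_lt_sum (fun i _ => (key i).1) ⟨i, Finset.mem_univ i, (key i).2 hi⟩

theorem integralM {m : ℕ} (c) :
    IsIntegral ℤ ((rename Sum.inl A.M : MvPolynomial (Fin (n + 1) ⊕ Fin m) K).coeff c) := by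
  classical
  rw [renM, coeff_monomial]
  split_ifs
  · exact isIntegral_one
  · exact isIntegral_zero

end Side

end Pool.Agent.Q16.TS
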