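import Pool.Agent.Q16.LS.Fun
set_option autoImplicit false

/-!
Monic polynomials at large arguments, and quotients of powers of functions on tori.
-/

namespace Pool.Agent.Q16.TS

open Pool.Agent.TH826.MK

open Pool.Agent.TH826.EF (abs_log_one_sub)

open Pool.Agent.TH690.SF (good_pow lw_pow)

open Pool.Agent.TH333.CY (good_inv lw_inv)

open Polynomial in
/-- Monic polynomials at large arguments. -/
theorem exists_big {q : ℂ[X]} (hq : q.Monic) {δ : ℝ} (hδ : 0 < δ) :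
    ∃ B : ℝ, 1 ≤ B ∧ ∀ z : ℂ, B ≤ ‖z‖ → q.eval z ≠ 0 ∧
      |Real.log ‖q.eval z‖ - q.natDegree * Real.log ‖z‖| ≤ 1 ∧
      ‖z * (derivative q).eval z / q.eval z - q.natDegree‖ ≤ δ := by
  set d := q.natDegree with hd
  set S : ℝ := ∑ i ∈ Finset.range d, ‖q.coeff i‖ with hS
  have hS0 : 0 ≤ S := Finset.sum_nonneg fun i _ => norm_nonneg _
  refine ⟨2 * S + 1 + 2 * d * S / δ, ?_, fun z hz => ?_⟩
  · have : 0 ≤ 2 * d * S / δ := by positivity
    linarith
  have h0 : 0 ≤ 2 * d * S / δ := by positivity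
  have hz1 : 1 ≤ ‖z‖ := by linarith
  have hz0 : z ≠ 0 := by
    rintro rfl
    rw [norm_zero] at hz1
    linarith
  have hzd : 0 < ‖z‖ ^ d := by positivity
  set Lo : ℂ := ∑ i ∈ Finset.range d, q.coeff i * z ^ i with hLo
  set Lo' : ℂ := ∑ i ∈ Finset.range d, (((i : ℕ) : ℂ) - d) * (q.coeff i * z ^ i) with hLo'
  have hpow : ∀ i ∈ Finset.range d, ‖z‖ ^ i * ‖z‖ ≤ ‖z‖ ^ d := by
    intro i hi
    rw [← pow_succ]
    exact pow_le_pow_right₀ hz1 (Finset.mem_range.1 hi)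
  have h1 : ‖Lo‖ * ‖z‖ ≤ S * ‖z‖ ^ d := by
    calc ‖Lo‖ * ‖z‖ ≤ (∑ i ∈ Finset.range d, ‖q.coeff i * z ^ i‖) * ‖z‖ :=
          mul_le_mul_of_nonneg_right (norm_sum_le _ _) (norm_nonneg _)
      _ = ∑ i ∈ Finset.range d, ‖q.coeff i‖ * (‖z‖ ^ i * ‖z‖) := by
          rw [Finset.sum_mul]
          refine Finset.sum_congr rfl fun i _ => ?_
          rw [norm_mul, norm_pow, mul_assoc]
      _ ≤ ∑ i ∈ Finset.range d, ‖q.coeff i‖ * ‖z‖ ^ d :=
          Finset.sum_le_sum fun i hi => mul_le_mul_of_nonneg_left (hpow i hi) (norm_nonneg _)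
      _ = S * ‖z‖ ^ d := by rw [← Finset.sum_mul]
  have h1' : ‖Lo'‖ * ‖z‖ ≤ d * S * ‖z‖ ^ d := by
    calc ‖Lo'‖ * ‖z‖ ≤ (∑ i ∈ Finset.range d,
          ‖(((i : ℕ) : ℂ) - d) * (q.coeff i * z ^ i)‖) * ‖z‖ :=
          mul_le_mul_of_nonneg_right (norm_sum_le _ _) (norm_nonneg _)
      _ = ∑ i ∈ Finset.range d, ‖(((i : ℕ) : ℂ) - d)‖ * (‖q.coeff i‖ * (‖z‖ ^ i * ‖z‖)) := by
          rw [Finset.sum_mul]
          refine Finset.sum_congr rfl fun i _ => ?_
          rw [norm_mul, norm_mul, norm_pow]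
          ring
      _ ≤ ∑ i ∈ Finset.range d, d * (‖q.coeff i‖ * ‖z‖ ^ d) := by
          refine Finset.sum_le_sum fun i hi => mul_le_mul ?_
            (mul_le_mul_of_nonneg_left (hpow i hi) (norm_nonneg _)) (by positivity)
            (by positivity)
          have h2 : (((i : ℕ) : ℂ) - d) = -(((d - i : ℕ) : ℕ) : ℂ) := by
            rw [Nat.cast_sub (Finset.mem_range.1 hi).le]
            ring
          rw [h2, norm_neg, Complex.norm_natCast]
          exact_mod_cast Nat.sub_le d i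
      _ = d * S * ‖z‖ ^ d := by
          rw [hS, ← Finset.mul_sum, ← Finset.sum_mul]
          ring
  have hev : q.eval z = z ^ d + Lo := by
    rw [eval_eq_sum_range, Finset.sum_range_succ, hq.coeff_natDegree, one_mul, add_comm]
  have hev' : z * (derivative q).eval z - d * q.eval z = Lo' := by
    have h2 : z * (derivative q).eval z = ∑ i ∈ Finset.range (d + 1),
        (i : ℂ) * (q.coeff i * z ^ i) := by
      rw [derivative_eval, sum_over_range _ (by simp), Finset.mul_sum]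
      refine Finset.sum_congr rfl fun i _ => ?_
      cases i with
      | zero => simp
      | succ i =>
        rw [Nat.add_sub_cancel, pow_succ]
        ring
    rw [h2, eval_eq_sum_range, ← hd, Finset.mul_sum, ← Finset.sum_sub_distrib,
      Finset.sum_range_succ]
    rw [sub_self, add_zero]
    refine Finset.sum_congr rfl fun i _ => ?_
    ring
  have hw : ‖Lo / z ^ d‖ ≤ 1 / 2 := by
    rw [norm_div, norm_pow, div_le_iff₀ hzd]
    have h3 : ‖Lo‖ * ‖z‖ ≤ (1 / 2 * ‖z‖ ^ d) * ‖z‖ := by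
      refine h1.trans ?_
      nlinarith
    exact le_of_mul_le_mul_right h3 (by linarith)
  have hq1 : q.eval z = z ^ d * (1 - -(Lo / z ^ d)) := by
    rw [hev]
    field_simp
    ring
  have hw' : ‖-(Lo / z ^ d)‖ ≤ 1 / 2 := by rwa [norm_neg]
  have hlog := abs_log_one_sub hw'
  have hge := Pool.Agent.TH826.EF.norm_one_sub_ge hw'
  have hne1 : (1 - -(Lo / z ^ d)) ≠ 0 := by
    intro h
    rw [h, norm_zero] at hge
    linarith
  have hne : q.eval z ≠ 0 := by
    rw [hq1]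
    exact mul_ne_zero (pow_ne_zero _ hz0) hne1
  refine ⟨hne, ?_, ?_⟩
  · rw [hq1, norm_mul, norm_pow, Real.log_mul hzd.ne' (norm_ne_zero_iff.2 hne1), Real.log_pow]
    rwa [add_sub_cancel_left]
  · have h3 : z * (derivative q).eval z / q.eval z - (d : ℂ) = Lo' / q.eval z := by
      rw [← hev']
      field_simp
    have h4 : ‖z‖ ^ d / 2 ≤ ‖q.eval z‖ := by
      rw [hq1, norm_mul, norm_pow]
      nlinarith
    rw [h3, norm_div, div_le_iff₀ (norm_pos_iff.2 hne)]
    have h5 : ‖Lo'‖ * ‖z‖ ≤ (δ * ‖q.eval z‖) * ‖z‖ := by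
      have h6 : 2 * d * S ≤ δ * ‖z‖ := by
        have h7 : 2 * d * S / δ ≤ ‖z‖ := by linarith
        rw [div_le_iff₀ hδ] at h7
        linarith
      calc ‖Lo'‖ * ‖z‖ ≤ d * S * ‖z‖ ^ d := h1'
        _ ≤ (δ * ‖z‖ / 2) * ‖z‖ ^ d := by
            refine mul_le_mul_of_nonneg_right ?_ hzd.le
            linarith
        _ = (δ * ‖z‖) * (‖z‖ ^ d / 2) := by ring
        _ ≤ (δ * ‖z‖) * ‖q.eval z‖ := mul_le_mul_of_nonneg_left h4 (by positivity)
        _ = _ := by ring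
    exact le_of_mul_le_mul_right h5 (by linarith)

section fn

variable {N : ℕ}

theorem good_poly {g : (Fin N → ℝ) → ℂ} (hg : Good g) {q : Polynomial ℂ}
    (h : ∀ θ, q.eval (g θ) ≠ 0) : Good fun θ => q.eval (g θ) := by
  refine ⟨?_, h⟩
  have e : (fun θ => q.eval (g θ)) = fun θ => ∑ i ∈ Finset.range (q.natDegree + 1),
      q.coeff i * g θ ^ i := by
    funext θ
    exact Polynomial.eval_eq_sum_range _
  rw [e]
  exact ContDiff.sum fun i _ => contDiff_const.mul (hg.smooth.pow i)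

theorem lw_poly {g : (Fin N → ℝ) → ℂ} (hg : Good g) {q : Polynomial ℂ}
    (h : ∀ θ, q.eval (g θ) ≠ 0) (j : Fin N) (θ : Fin N → ℝ) :
    lw (fun θ => q.eval (g θ)) j θ =
      (g θ * q.derivative.eval (g θ) / q.eval (g θ)) * lw g j θ := by
  unfold lw
  have h1 : HasFDerivAt g (fderiv ℝ g θ) θ := ((hg.smooth.differentiable (by norm_num)) θ).hasFDerivAt
  have h2 : HasDerivAt (fun z => q.eval z) (q.derivative.eval (g θ)) (g θ) := q.hasDerivAt (g θ)
  have h3 : HasFDerivAt (fun θ => q.eval (g θ)) (q.derivative.eval (g θ) • fderiv ℝ g θ) θ :=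
    h2.comp_hasFDerivAt θ h1
  rw [h3.fderiv]
  have h4 := hg.ne_zero θ
  have h5 := h θ
  rw [ContinuousLinearMap.smul_apply, smul_eq_mul]
  field_simp

variable {f0 f1 : (Fin N → ℝ) → ℂ} (h0 : Good f0) (h1 : Good f1) (a b : ℕ)

include h0 h1 in
theorem good_quot : Good fun θ => f1 θ ^ a / f0 θ ^ b := by
  simp only [div_eq_mul_inv]
  exact (good_pow h1 a).mul (good_inv (good_pow h0 b))

include h0 h1 in
theorem log_quot (θ : Fin N → ℝ) : Real.log ‖f1 θ ^ a / f0 θ ^ b‖ =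
    a * Real.log ‖f1 θ‖ - b * Real.log ‖f0 θ‖ := by
  have h2 := h0.ne_zero θ
  have h3 := h1.ne_zero θ
  rw [norm_div, norm_pow, norm_pow, Real.log_div (pow_ne_zero _ (norm_ne_zero_iff.2 h3))
    (pow_ne_zero _ (norm_ne_zero_iff.2 h2)), Real.log_pow, Real.log_pow]

include h0 h1 in
theorem lw_quot (j : Fin N) (θ : Fin N → ℝ) : lw (fun θ => f1 θ ^ a / f0 θ ^ b) j θ =
    a * lw f1 j θ - b * lw f0 j θ := by
  simp only [div_eq_mul_inv]
  rw [lw_mul (good_pow h1 a) (good_inv (good_pow h0 b)), lw_inv (good_pow h0 b), lw_pow h1,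
    lw_pow h0]
  ring

end fn

end Pool.Agent.Q16.TS
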