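import Pool.Agent.Q16.LS.PDefs
set_option autoImplicit false

/-!
The hypersurfaces `P(z) / z ^ k = λ Q(x) / x ^ l` with products `P(z) = ∏_i P_i(z_i)` and
`Q(x) = ∏_j Q_j(x_j)` of polynomials in one variable, and two kinds of symbols on them.
-/

namespace Pool.Agent.Q16.TS

open MvPolynomial

open Pool.Agent.Q16.LS

/-- A product `∏_j ∏_i h_{j,i}(x_j) ^ (w_{j,i} + 1)` of polynomials in one variable and a monomial
`∏_j x_j ^ l_j`. -/
structure Side (K : Type*) [Field K] (n : ℕ) where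
  /-- the number of the factors in the variable `x_j` minus one -/
  r : Fin (n + 1) → ℕ
  /-- the factors -/
  h : (j : Fin (n + 1)) → Fin (r j + 1) → Polynomial K
  /-- the multiplicities minus one -/
  w : (j : Fin (n + 1)) → Fin (r j + 1) → ℕ
  /-- the exponents of the monomial -/
  l : Fin (n + 1) → ℕ

namespace Side

variable {K : Type*} [Field K] {n : ℕ} (A : Side K n)

/-- The polynomial `∏_j ∏_i h_{j,i}(x_j) ^ (w_{j,i} + 1)`. -/
noncomputable def P : MvPolynomial (Fin (n + 1)) K :=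
  ∏ j, ∏ i, uv j (A.h j i) ^ (A.w j i + 1)

/-- The monomial `∏_j x_j ^ l_j`. -/
noncomputable def M : MvPolynomial (Fin (n + 1)) K := pD K A.l

/-- The degree of the polynomial in `x_j`. -/
def deg (j : Fin (n + 1)) : ℕ := ∑ i, (A.w j i + 1) * (A.h j i).natDegree

theorem dvd_P (j : Fin (n + 1)) (i : Fin (A.r j + 1)) : uv j (A.h j i) ∣ A.P :=
  ((dvd_pow_self _ (Nat.succ_ne_zero _)).trans
    (Finset.dvd_prod_of_mem (fun i => uv j (A.h j i) ^ (A.w j i + 1)) (Finset.mem_univ i))).trans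
    (Finset.dvd_prod_of_mem (fun j => ∏ i, uv j (A.h j i) ^ (A.w j i + 1)) (Finset.mem_univ j))

/-- The hypotheses on a side: the factors are monic of positive degree, divide polynomials
`X ^ m - 1` with `m ≥ 1`, those in the same variable are pairwise coprime; the exponents of the
monomial are positive and smaller than the degrees, and the degree in `x_0` is `l_0 + 1`. -/
structure Cyc : Prop where
  monic : ∀ j i, (A.h j i).Monic
  pos : ∀ j i, 0 < (A.h j i).natDegree
  cyc : ∀ j i, ∃ m : ℕ, m ≠ 0 ∧ A.h j i ∣ Polynomial.X ^ m - 1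
  coprime : ∀ j i i', i ≠ i' → IsCoprime (A.h j i) (A.h j i')
  l_pos : ∀ j, 0 < A.l j
  l_lt : ∀ j, A.l j < A.deg j
  top : A.deg 0 = A.l 0 + 1

end Side

/-- The entries `a_0, b_0, ..., b_n, a_1, ..., a_s`. -/
def ent {R : Type*} {s n : ℕ} (a : Fin (s + 1) → R) (b : Fin (n + 1) → R) : Fin (n + 1 + s + 1) → R :=
  Fin.cons (a 0) (Fin.append b fun i => a i.succ)

section ring

variable {K : Type*} [Field K] {s n : ℕ} (A : Side K s) (B : Side K n) (lam : K)

/-- The equation `x ^ l P(z) - λ z ^ k Q(x)`. -/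
noncomputable def teqn : MvPolynomial (Fin (s + 1) ⊕ Fin (n + 1)) K :=
  weqn A.P (rename Sum.inl A.M) B.M (C lam * B.P)

/-- The product of the variables, of `P(z)` and of `Q(x)`. -/
noncomputable def tdel : MvPolynomial (Fin (s + 1) ⊕ Fin (n + 1)) K :=
  rename Sum.inl ((∏ i, X i) * A.P) * rename Sum.inr ((∏ j, X j) * B.P)

/-- The coordinate ring of the part of the hypersurface `x ^ l P(z) = λ z ^ k Q(x)` on which the
variables, `P(z)` and `Q(x)` do not vanish. -/
abbrev TOpen : Type _ := VOpen (teqn A B lam) (tdel A B)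

theorem dvd_tdel_z {q : MvPolynomial (Fin (s + 1)) K} (hq : q ∣ (∏ i, X i) * A.P) :
    (rename Sum.inl q : MvPolynomial (Fin (s + 1) ⊕ Fin (n + 1)) K) ∣ tdel A B :=
  Dvd.dvd.mul_right (map_dvd _ hq) _

theorem dvd_tdel_x {q : MvPolynomial (Fin (n + 1)) K} (hq : q ∣ (∏ i, X i) * B.P) :
    (rename Sum.inr q : MvPolynomial (Fin (s + 1) ⊕ Fin (n + 1)) K) ∣ tdel A B :=
  Dvd.dvd.mul_left (map_dvd _ hq) _

theorem X_dvd (i : Fin (s + 1)) : (X i : MvPolynomial (Fin (s + 1)) K) ∣ (∏ i, X i) * A.P :=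
  Dvd.dvd.mul_right (Finset.dvd_prod_of_mem
    (fun i => (X i : MvPolynomial (Fin (s + 1)) K)) (Finset.mem_univ i)) _

/-- The unit `z_i`. -/
noncomputable def zu (i : Fin (s + 1)) : (TOpen A B lam)ˣ := ou _ _ (dvd_tdel_z A B (X_dvd A i))

/-- The unit `x_j`. -/
noncomputable def xu (j : Fin (n + 1)) : (TOpen A B lam)ˣ := ou _ _ (dvd_tdel_x A B (X_dvd B j))

/-- The factors in `z_i` as units. -/
noncomputable def zf (i : Fin (s + 1)) (a : Fin (A.r i + 1)) : (TOpen A B lam)ˣ :=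
  ou _ _ (dvd_tdel_z A B ((A.dvd_P i a).mul_left _))

/-- The factors in `x_j` as units. -/
noncomputable def xf (j : Fin (n + 1)) (a : Fin (B.r j + 1)) : (TOpen A B lam)ˣ :=
  ou _ _ (dvd_tdel_x A B ((B.dvd_P j a).mul_left _))

/-- The units `g_{i,κ_i + 1}(z_i) ^ (deg g_{i,0}) / g_{i,0}(z_i) ^ (deg g_{i,κ_i + 1})`, where
`g_{i,0}, ..., g_{i,r_i}` are the factors in `z_i`. -/
noncomputable def zr (κ : ∀ i, Fin (A.r i)) (i : Fin (s + 1)) : (TOpen A B lam)ˣ :=
  zf A B lam i (κ i).succ ^ (A.h i 0).natDegree / zf A B lam i 0 ^ (A.h i (κ i).succ).natDegree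

/-- The units `h_{j,κ_j + 1}(x_j) ^ (deg h_{j,0}) / h_{j,0}(x_j) ^ (deg h_{j,κ_j + 1})`, where
`h_{j,0}, ..., h_{j,r_j}` are the factors in `x_j`. -/
noncomputable def xr (κ : ∀ j, Fin (B.r j)) (j : Fin (n + 1)) : (TOpen A B lam)ˣ :=
  xf A B lam j (κ j).succ ^ (B.h j 0).natDegree / xf A B lam j 0 ^ (B.h j (κ j).succ).natDegree

/-- The entries of the symbols of the first kind: `z_0`, the units `xr`, `z_1, ..., z_s`. -/
noncomputable def symA (κ : ∀ j, Fin (B.r j)) : Fin (n + 1 + s + 1) → (TOpen A B lam)ˣ :=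
  ent (zu A B lam) (xr A B lam κ)

/-- The entries of the symbols of the second kind: `x_0`, the units `zr`, `x_1, ..., x_n`. -/
noncomputable def symB (κ : ∀ i, Fin (A.r i)) : Fin (n + 1 + s + 1) → (TOpen A B lam)ˣ :=
  fun m => ent (xu A B lam) (zr A B lam κ) (Fin.cast (by omega) m)

end ring

end Pool.Agent.Q16.TS
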