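import Pool.Agent.Q16.TS.Alg
set_option autoImplicit false

/-!
The symbols of both kinds are unramified.
-/

namespace Pool.Agent.Q16.TS

open MvPolynomial

open Pool.Agent.Q16.LS

open Pool.Agent.TH826.MK (KQ symb Unramified)

section lift

variable {K : Type*} [Field K] {ι : Type*} {F Δ : MvPolynomial ι K} {L : Type*} [Field L]

/-- The homomorphisms from the ring of the open part. -/
theorem exists_vlift (ψ : MvPolynomial ι K →+* L) (h0 : ψ F = 0) (hu : ψ Δ ≠ 0) :
    ∃ g : VOpen F Δ →+* L, ∀ q, g (opol F Δ q) = ψ q := by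
  have hle : Ideal.span {F} ≤ RingHom.ker ψ := by
    rw [Ideal.span_le]
    rintro q rfl
    exact h0
  set g0 : VRing F →+* L := Ideal.Quotient.lift (Ideal.span {F}) ψ fun q hq => hle hq with hg0
  have hg : ∀ q, g0 (vpol F q) = ψ q := fun q => Ideal.Quotient.lift_mk _ _ _
  refine ⟨AdjoinRoot.lift g0 (ψ Δ)⁻¹ ?_, fun q => ?_⟩
  · unfold veqn
    simp only [Polynomial.eval₂_sub, Polynomial.eval₂_mul, Polynomial.eval₂_X,
      Polynomial.eval₂_C, Polynomial.eval₂_one]
    rw [hg, mul_inv_cancel₀ hu, sub_self]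
  · exact (AdjoinRoot.lift_of _).trans (hg q)

end lift

theorem unram_cast {L : Type*} [Field L] {m m' : ℕ} (h : m = m') (a : Fin m' → Lˣ)
    (ha : symb a ∈ Unramified L m') : symb (fun l => a (Fin.cast h l)) ∈ Unramified L m := by
  subst h
  exact ha

section unram

variable {K : Type*} [Field K] {s n : ℕ} {A : Side K s} {B : Side K n} {lam : K}
  {L : Type*} [Field L]

theorem map_ent {R S : Type*} (f : R → S) (a : Fin (s + 1) → R) (b : Fin (n + 1) → R)
    (m : Fin (n + 1 + s + 1)) : f (ent a b m) = ent (fun i => f (a i)) (fun j => f (b j)) m := by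
  refine Fin.cases rfl (fun m => ?_) m
  unfold ent
  rw [Fin.cons_succ, Fin.cons_succ]
  refine Fin.addCases (fun j => ?_) (fun i => ?_) m
  · rw [Fin.append_left, Fin.append_left]
  · rw [Fin.append_right, Fin.append_right]

/-- The symbols of the first kind, for a homomorphism from the ring of polynomials. -/
theorem unram_poly (hA : A.Cyc) (hB : B.Cyc) (hlam : IsIntegral ℤ lam) (hl0 : lam ≠ 0)
    (ψ : MvPolynomial (Fin (s + 1) ⊕ Fin (n + 1)) K →+* L) (h0 : ψ (teqn A B lam) = 0)
    (z : Fin (s + 1) → Lˣ) (hz : ∀ i, (z i : L) = ψ (X (Sum.inl i)))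
    (hx0 : ∀ j, ψ (X (Sum.inr j)) ≠ 0)
    (b : (j : Fin (n + 1)) → Fin (B.r j + 1) → Lˣ)
    (hb : ∀ j a, (b j a : L) = ψ (rename Sum.inr (uv j (B.h j a))))
    (κ : ∀ j, Fin (B.r j)) :
    symb (ent z fun j => b j (κ j).succ ^ (B.h j 0).natDegree /
      b j 0 ^ (B.h j (κ j).succ).natDegree) ∈ Unramified L (n + 1 + s + 1) := by
  have hPhi : pPhi B.r B.h B.w lam = C lam * B.P := rfl
  have hMx : ψ (rename Sum.inr B.M) ≠ 0 := by
    unfold Side.M pD
    rw [map_prod, map_prod]
    refine Finset.prod_ne_zero_iff.2 fun j _ => ?_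
    rw [map_pow, map_pow, rename_X]
    exact pow_ne_zero _ (hx0 j)
  have hPx : ψ (rename Sum.inr B.P) ≠ 0 := by
    unfold Side.P
    rw [map_prod, map_prod]
    refine Finset.prod_ne_zero_iff.2 fun j _ => ?_
    rw [map_prod, map_prod]
    refine Finset.prod_ne_zero_iff.2 fun a _ => ?_
    rw [map_pow, map_pow, ← hb]
    exact pow_ne_zero _ (b j a).ne_zero
  have hlamψ : ψ (C lam) ≠ 0 := by
    have h1 : IsUnit (ψ (C lam)) := ((IsUnit.mk0 lam hl0).map (C : K →+* _)).map ψ
    exact h1.ne_zero
  obtain ⟨g, hg⟩ := exists_vlift (F := weqn A.P (rename Sum.inl A.M) (pD K B.l)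
    (pPhi B.r B.h B.w lam)) (Δ := ldel s (pD K B.l * pPhi B.r B.h B.w lam)) ψ h0 (by
      unfold ldel
      rw [map_mul, map_mul, map_mul, hPhi, map_mul, map_mul, map_prod, rename_C]
      refine mul_ne_zero (mul_ne_zero hMx (mul_ne_zero hlamψ hPx))
        (Finset.prod_ne_zero_iff.2 fun i _ => ?_)
      rw [← hz]
      exact (z i).ne_zero)
  have h1 := psym_unramified (r := B.r) (h := B.h) (w := B.w) (lam := lam) (β := B.l) g
    hA.P_ne_zero hA.split
    ((map_ne_zero_iff _ (rename_injective _ Sum.inl_injective)).2 A.M_ne_zero)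
    (fun m => Side.integralM m) (Side.interior hA) hlam hB.monic
    (fun j i m => by
      obtain ⟨N, hN, hd⟩ := hB.cyc j i
      exact Pool.Agent.Q16.BF.integral_coeff hN (hB.monic j i) hd m)
    (fun j _ i => hB.eval_zero j i) κ
  rw [KQ.map_symb] at h1
  have h2 : (fun l => Units.map (g : WOpen A.P (rename Sum.inl A.M) (pD K B.l)
      (pPhi B.r B.h B.w lam) →* L) (psym B.r B.h B.w lam B.l A.P (rename Sum.inl A.M) κ l)) =
      ent z fun j => b j (κ j).succ ^ (B.h j 0).natDegree /
        b j 0 ^ (B.h j (κ j).succ).natDegree := by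
    have hzu : ∀ i, Units.map (g : WOpen A.P (rename Sum.inl A.M) (pD K B.l)
        (pPhi B.r B.h B.w lam) →* L) (ou _ _ (X_dvd_ldel (pD K B.l * pPhi B.r B.h B.w lam) i)) =
        z i := by
      intro i
      refine Units.ext ?_
      rw [hz]
      exact hg _
    have hbu : ∀ j a, Units.map (g : WOpen A.P (rename Sum.inl A.M) (pD K B.l)
        (pPhi B.r B.h B.w lam) →* L) (pf B.r B.h B.w lam B.l A.P (rename Sum.inl A.M) j a) =
        b j a := by
      intro j a
      refine Units.ext ?_
      rw [hb]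
      exact hg _
    funext l
    refine Fin.cases (hzu 0) (fun l => ?_) l
    refine Fin.addCases (fun j => ?_) (fun i => ?_) l
    · have h3 := went_iu (pu B.r B.h B.w lam B.l A.P (rename Sum.inl A.M) κ) j
      unfold Pool.Agent.Q16.BF.iu at h3
      unfold psym ent
      rw [h3, Fin.cons_succ, Fin.append_left]
      unfold pu
      rw [map_div, map_pow, map_pow, hbu, hbu]
    · have h3 := went_iz (pu B.r B.h B.w lam B.l A.P (rename Sum.inl A.M) κ) i.succ
      unfold Pool.Agent.Q16.BF.iz at h3
      rw [Fin.cons_succ] at h3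
      unfold psym ent
      rw [h3, Fin.cons_succ, Fin.append_right]
      exact hzu i.succ
  rw [h2] at h1
  exact h1

variable (f : TOpen A B lam →+* L)

/-- The symbols of the first kind are unramified. -/
theorem symA_unramified (hA : A.Cyc) (hB : B.Cyc) (hlam : IsIntegral ℤ lam) (hl0 : lam ≠ 0)
    (κ : ∀ j, Fin (B.r j)) :
    KQ.map (n + 1 + s + 1) f (symb (symA A B lam κ)) ∈ Unramified L (n + 1 + s + 1) := by
  rw [KQ.map_symb]
  have h1 := unram_poly hA hB hlam hl0 (f.comp (opol (teqn A B lam) (tdel A B)))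
    (by
      show f (opol (teqn A B lam) (tdel A B) (teqn A B lam)) = 0
      rw [opol_F, map_zero])
    (fun i => Units.map (f : TOpen A B lam →* L) (zu A B lam i)) (fun i => by
      show f (opol _ _ (rename Sum.inl (X i))) = f (opol _ _ (X (Sum.inl i)))
      rw [rename_X]) (fun j => by
      have h2 : f (opol (teqn A B lam) (tdel A B) (rename Sum.inr (X j))) ≠ 0 :=
        ((xu A B lam j).isUnit.map f).ne_zero
      rw [rename_X] at h2
      exact h2)
    (fun j a => Units.map (f : TOpen A B lam →* L) (xf A B lam j a)) (fun j a => rfl) κ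
  have h2 : (fun l => Units.map (f : TOpen A B lam →* L) (symA A B lam κ l)) =
      ent (fun i => Units.map (f : TOpen A B lam →* L) (zu A B lam i)) fun j =>
        Units.map (f : TOpen A B lam →* L) (xf A B lam j (κ j).succ) ^ (B.h j 0).natDegree /
        Units.map (f : TOpen A B lam →* L) (xf A B lam j 0) ^
          (B.h j (κ j).succ).natDegree := by
    funext l
    refine (map_ent (Units.map (f : TOpen A B lam →* L)) (zu A B lam) (xr A B lam κ) l).trans ?_
    congr 1
    funext j
    unfold xr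
    rw [map_div, map_pow, map_pow]
  rw [h2]
  exact h1

theorem rename_swap_teqn (hl0 : lam ≠ 0) :
    rename Sum.swap (teqn B A lam⁻¹) = C (-lam⁻¹) * teqn A B lam := by
  have h1 : ∀ {a b : ℕ} (q : MvPolynomial (Fin a) K),
      rename (Sum.swap : Fin a ⊕ Fin b → Fin b ⊕ Fin a) (rename Sum.inl q) = rename Sum.inr q :=
    fun q => by rw [rename_rename]; rfl
  have h2 : ∀ {a b : ℕ} (q : MvPolynomial (Fin b) K),
      rename (Sum.swap : Fin a ⊕ Fin b → Fin b ⊕ Fin a) (rename Sum.inr q) = rename Sum.inl q :=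
    fun q => by rw [rename_rename]; rfl
  unfold teqn weqn
  rw [map_sub, map_mul, map_mul, h1, h1, h2, h2, map_mul, map_mul, rename_C, rename_C, C_neg]
  have h3 : (C lam⁻¹ * C lam : MvPolynomial (Fin (s + 1) ⊕ Fin (n + 1)) K) = 1 := by
    rw [← C_mul, inv_mul_cancel₀ hl0, C_1]
  linear_combination (-(rename Sum.inr B.P * rename Sum.inl A.M)) * h3

/-- The symbols of the second kind are unramified. -/
theorem symB_unramified (hA : A.Cyc) (hB : B.Cyc) (hlam : IsIntegral ℤ lam⁻¹) (hl0 : lam ≠ 0)
    (κ : ∀ i, Fin (A.r i)) :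
    KQ.map (n + 1 + s + 1) f (symb (symB A B lam κ)) ∈ Unramified L (n + 1 + s + 1) := by
  rw [KQ.map_symb]
  set ψ : MvPolynomial (Fin (n + 1) ⊕ Fin (s + 1)) K →+* L :=
    (f.comp (opol (teqn A B lam) (tdel A B))).comp
      (rename Sum.swap : MvPolynomial (Fin (n + 1) ⊕ Fin (s + 1)) K →ₐ[K] _).toRingHom with hψ
  have hψq : ∀ q, ψ q = f (opol (teqn A B lam) (tdel A B) (rename Sum.swap q)) := fun q => rfl
  have h1 := unram_poly hB hA hlam (inv_ne_zero hl0) ψ
    (by
      rw [hψq, rename_swap_teqn hl0, map_mul, opol_F, mul_zero, map_zero])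
    (fun i => Units.map (f : TOpen A B lam →* L) (xu A B lam i)) (fun i => by
      rw [hψq, rename_X]
      show f (opol _ _ (rename Sum.inr (X i))) = _
      rw [rename_X]
      rfl) (fun j => by
      have h2 : f (opol (teqn A B lam) (tdel A B) (rename Sum.inl (X j))) ≠ 0 :=
        ((zu A B lam j).isUnit.map f).ne_zero
      rw [rename_X] at h2
      rw [hψq, rename_X]
      exact h2)
    (fun j a => Units.map (f : TOpen A B lam →* L) (zf A B lam j a)) (fun j a => by
      rw [hψq, rename_rename]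
      rfl) κ
  have h2 : (fun l => Units.map (f : TOpen A B lam →* L) (symB A B lam κ l)) =
      fun l => ent (fun i => Units.map (f : TOpen A B lam →* L) (xu A B lam i)) (fun j =>
        Units.map (f : TOpen A B lam →* L) (zf A B lam j (κ j).succ) ^ (A.h j 0).natDegree /
        Units.map (f : TOpen A B lam →* L) (zf A B lam j 0) ^
          (A.h j (κ j).succ).natDegree) (Fin.cast (by omega) l) := by
    funext l
    refine (map_ent (Units.map (f : TOpen A B lam →* L)) (xu A B lam) (zr A B lam κ)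
      (Fin.cast (by omega) l)).trans ?_
    congr 1
    funext j
    unfold zr
    rw [map_div, map_pow, map_pow]
  rw [h2]
  exact unram_cast (by omega) _ h1

end unram

end Pool.Agent.Q16.TS
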