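import Pool.Agent.Q16.TS.SideT
import Pool.Agent.Q16.TS.Unram
set_option autoImplicit false

/-!
The regulators of the symbols of both kinds, on tori over two embeddings.
-/

namespace Pool.Agent.Q16.TS

open MvPolynomial

open Pool.Agent.Q16.LS

open Pool.Agent.TH826.MK

open Pool.Agent.TH826.SX (det_ne_zero_near)

section map

variable {K : Type*} [Field K] {s n : ℕ} (σ : K →+* ℂ)

/-- The side over the complex numbers. -/
noncomputable def Side.map {n : ℕ} (A : Side K n) : Side ℂ n :=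
  ⟨A.r, fun j i => (A.h j i).map σ, A.w, A.l⟩

theorem Side.Cyc.map {A : Side K n} (hA : A.Cyc) : (A.map σ).Cyc where
  monic j i := (hA.monic j i).map σ
  pos j i := by
    have h1 := hA.pos j i
    show 0 < ((A.h j i).map σ).natDegree
    rwa [Polynomial.natDegree_map]
  cyc j i := by
    obtain ⟨m, hm, hd⟩ := hA.cyc j i
    refine ⟨m, hm, ?_⟩
    have h1 := Polynomial.map_dvd σ hd
    show (A.h j i).map σ ∣ Polynomial.X ^ m - 1
    simpa using h1
  coprime j i i' hne := (hA.coprime j i i' hne).map (Polynomial.mapRingHom σ)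
  l_pos := hA.l_pos
  l_lt j := by
    have h1 := hA.l_lt j
    show A.l j < ∑ i, (A.w j i + 1) * ((A.h j i).map σ).natDegree
    simp only [Polynomial.natDegree_map]
    exact h1
  top := by
    have h1 := hA.top
    show ∑ i, (A.w 0 i + 1) * ((A.h 0 i).map σ).natDegree = A.l 0 + 1
    simp only [Polynomial.natDegree_map]
    exact h1

theorem map_P (A : Side K n) : MvPolynomial.map σ A.P = (A.map σ).P := by
  unfold Side.P
  rw [map_prod]
  refine Finset.prod_congr rfl fun j _ => ?_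
  rw [map_prod]
  refine Finset.prod_congr rfl fun i _ => ?_
  rw [map_pow, map_uv]
  rfl

theorem map_M (A : Side K n) : MvPolynomial.map σ A.M = (A.map σ).M := by
  unfold Side.M pD
  rw [map_prod]
  refine Finset.prod_congr rfl fun j _ => ?_
  rw [map_pow, map_X]
  rfl

theorem map_teqn (A : Side K s) (B : Side K n) (lam : K) :
    MvPolynomial.map σ (teqn A B lam) = teqn (A.map σ) (B.map σ) (σ lam) := by
  unfold teqn
  rw [map_weqn, map_rename, map_P, map_P, map_M, map_M]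

theorem uv_mem_ne {A : Side ℂ n} {y : Fin (n + 1) → ℂ} (h : ∀ j a, (A.h j a).eval (y j) ≠ 0) :
    eval₂ ic y A.P ≠ 0 := by
  unfold Side.P
  rw [← coe_eval₂Hom, map_prod]
  refine Finset.prod_ne_zero_iff.2 fun j _ => ?_
  rw [map_prod]
  refine Finset.prod_ne_zero_iff.2 fun i _ => ?_
  rw [map_pow, coe_eval₂Hom, eval_uv]
  exact pow_ne_zero _ (h j i)

theorem eval_prod_X {n : ℕ} (y : Fin n → ℂ) : eval₂ ic y (∏ j, X j) = ∏ j, y j := by
  rw [← coe_eval₂Hom, map_prod]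
  refine Finset.prod_congr rfl fun j _ => ?_
  rw [coe_eval₂Hom, eval₂_X]

theorem vpt {A : Side K s} {B : Side K n} {lam : K} {z : Fin (s + 1) → ℂ} {x : Fin (n + 1) → ℂ}
    (he : eval₂ ic (Sum.elim z x) (teqn (A.map σ) (B.map σ) (σ lam)) = 0)
    (hz : ∀ i, z i ≠ 0) (hx : ∀ j, x j ≠ 0)
    (hzn : ∀ i a, ((A.map σ).h i a).eval (z i) ≠ 0)
    (hxn : ∀ j a, ((B.map σ).h j a).eval (x j) ≠ 0) :
    VPt σ (teqn A B lam) (tdel A B) (Sum.elim z x) := by
  refine ⟨?_, ?_⟩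
  · rw [eval₂_eq_ic, map_teqn]
    exact he
  · have h1 : MvPolynomial.map σ (tdel A B) = rename Sum.inl ((∏ i, X i) * (A.map σ).P) *
        rename Sum.inr ((∏ i, X i) * (B.map σ).P) := by
      unfold tdel
      rw [map_mul, map_rename, map_rename]
      congr 2
      · rw [map_mul, map_P, map_prod]
        simp only [map_X]
      · rw [map_mul, map_P, map_prod]
        simp only [map_X]
    rw [eval₂_eq_ic, h1, eval₂_mul, eval₂_rename, eval₂_rename, Sum.elim_comp_inl,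
      Sum.elim_comp_inr, eval₂_mul, eval₂_mul, eval_prod_X, eval_prod_X]
    exact mul_ne_zero (mul_ne_zero (Finset.prod_ne_zero_iff.2 fun i _ => hz i) (uv_mem_ne hzn))
      (mul_ne_zero (Finset.prod_ne_zero_iff.2 fun j _ => hx j) (uv_mem_ne hxn))

section torus

variable {A : Side K s} {B : Side K n} {lam : K}

/-- The torus with given coordinates. -/
theorem exists_torus
    (z : (Fin (n + 1 + s) → ℝ) → Fin (s + 1) → ℂ) (x : (Fin (n + 1 + s) → ℝ) → Fin (n + 1) → ℂ)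
    (hz : ∀ i, Good fun θ => z θ i) (hx : ∀ j, Good fun θ => x θ j)
    (hp : ∀ θ m, z (θ + Pi.single m 1) = z θ ∧ x (θ + Pi.single m 1) = x θ)
    (he : ∀ θ, eval₂ ic (Sum.elim (z θ) (x θ)) (teqn (A.map σ) (B.map σ) (σ lam)) = 0)
    (hzn : ∀ θ i a, ((A.map σ).h i a).eval (z θ i) ≠ 0)
    (hxn : ∀ θ j a, ((B.map σ).h j a).eval (x θ j) ≠ 0) :
    ∃ Γ : Torus (TOpen A B lam) (n + 1 + s),
      (∀ θ q, Γ.e θ (opol _ _ q) = eval₂ σ (Sum.elim (z θ) (x θ)) q) ∧
      (∀ κ, Γ.reg (symb (symA A B lam κ)) = pairing fun m θ =>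
        ent (z θ) (fun j => rt (B.map σ) κ j (x θ j)) m) ∧
      ∀ κ, Γ.reg (symb (symB A B lam κ)) = pairing fun m θ =>
        ent (x θ) (fun i => rt (A.map σ) κ i (z θ i)) (Fin.cast (by omega) m) := by
  have hPt : ∀ θ, VPt σ (teqn A B lam) (tdel A B) (Sum.elim (z θ) (x θ)) := fun θ =>
    vpt σ (he θ) (fun i => (hz i).ne_zero θ) (fun j => (hx j).ne_zero θ) (hzn θ) (hxn θ)
  set Γ : Torus (TOpen A B lam) (n + 1 + s) := mkV (fun θ => Sum.elim (z θ) (x θ))
    (fun i => by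
      rcases i with i | j
      · exact (hz i).smooth
      · exact (hx j).smooth)
    (fun θ m => by
      rw [(hp θ m).1, (hp θ m).2]) hPt with hΓ
  have hev : ∀ θ q, Γ.e θ (opol (teqn A B lam) (tdel A B) q) =
      eval₂ σ (Sum.elim (z θ) (x θ)) q := fun θ q => (hPt θ).ev_opol q
  have hzu : ∀ i θ, Γ.e θ (zu A B lam i : TOpen A B lam) = z θ i := by
    intro i θ
    refine (hev θ _).trans ?_
    rw [rename_X, eval₂_X]
    rfl
  have hxu : ∀ j θ, Γ.e θ (xu A B lam j : TOpen A B lam) = x θ j := by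
    intro j θ
    refine (hev θ _).trans ?_
    rw [rename_X, eval₂_X]
    rfl
  have hzf : ∀ i a θ, Γ.e θ (zf A B lam i a : TOpen A B lam) =
      ((A.map σ).h i a).eval (z θ i) := by
    intro i a θ
    refine (hev θ _).trans ?_
    rw [eval₂_rename, Sum.elim_comp_inl, eval_uv]
    exact (Polynomial.eval_map _ _).symm
  have hxf : ∀ j a θ, Γ.e θ (xf A B lam j a : TOpen A B lam) =
      ((B.map σ).h j a).eval (x θ j) := by
    intro j a θ
    refine (hev θ _).trans ?_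
    rw [eval₂_rename, Sum.elim_comp_inr, eval_uv]
    exact (Polynomial.eval_map _ _).symm
  have hdiv : ∀ (θ) (u v : (TOpen A B lam)ˣ), Γ.e θ ((u / v : (TOpen A B lam)ˣ) : TOpen A B lam) =
      Γ.e θ (u : TOpen A B lam) / Γ.e θ (v : TOpen A B lam) := by
    intro θ u v
    have h1 := congrArg (fun w : ℂˣ => (w : ℂ))
      (map_div (Units.map (Γ.e θ : TOpen A B lam →* ℂ)) u v)
    rw [Units.val_div_eq_div_val] at h1
    exact h1
  have hxr : ∀ κ j θ, Γ.e θ (xr A B lam κ j : TOpen A B lam) = rt (B.map σ) κ j (x θ j) := by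
    intro κ j θ
    unfold xr
    rw [hdiv, Units.val_pow_eq_pow_val, Units.val_pow_eq_pow_val, map_pow, map_pow, hxf, hxf]
    unfold rt
    have h1 : ∀ a, ((B.map σ).h j a).natDegree = (B.h j a).natDegree := fun a =>
      Polynomial.natDegree_map σ
    rw [h1, h1]
    rfl
  have hzr : ∀ κ i θ, Γ.e θ (zr A B lam κ i : TOpen A B lam) = rt (A.map σ) κ i (z θ i) := by
    intro κ i θ
    unfold zr
    rw [hdiv, Units.val_pow_eq_pow_val, Units.val_pow_eq_pow_val, map_pow, map_pow, hzf, hzf]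
    unfold rt
    have h1 : ∀ a, ((A.map σ).h i a).natDegree = (A.h i a).natDegree := fun a =>
      Polynomial.natDegree_map σ
    rw [h1, h1]
    rfl
  refine ⟨Γ, hev, fun κ => ?_, fun κ => ?_⟩
  · rw [Torus.reg_symb]
    show pairing (fun m => Γ.fn (symA A B lam κ m : TOpen A B lam)) = _
    congr 1
    funext m θ
    refine (map_ent (fun u : (TOpen A B lam)ˣ => Γ.e θ (u : TOpen A B lam)) (zu A B lam)
      (xr A B lam κ) m).trans ?_
    simp only [hzu, hxr]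
  · rw [Torus.reg_symb]
    show pairing (fun m => Γ.fn (symB A B lam κ m : TOpen A B lam)) = _
    congr 1
    funext m θ
    refine (map_ent (fun u : (TOpen A B lam)ˣ => Γ.e θ (u : TOpen A B lam)) (xu A B lam)
      (zr A B lam κ) (Fin.cast (by omega) m)).trans ?_
    simp only [hxu, hzr]

theorem ent_cases {R : Type*} (a : Fin (s + 1) → R) (b : Fin (n + 1) → R)
    (m : Fin (n + 1 + s + 1)) : (∃ i, ∀ {R' : Type} (a' : Fin (s + 1) → R') (b' : Fin (n + 1) → R'),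
      ent a' b' m = a' i) ∨ ∃ j, ∀ {R' : Type} (a' : Fin (s + 1) → R') (b' : Fin (n + 1) → R'),
      ent a' b' m = b' j := by
  refine Fin.cases (Or.inl ⟨0, fun a' b' => rfl⟩) (fun m => ?_) m
  refine Fin.addCases (fun j => Or.inr ⟨j, fun a' b' => ?_⟩)
    (fun i => Or.inl ⟨i.succ, fun a' b' => ?_⟩) m
  · unfold ent
    rw [Fin.cons_succ, Fin.append_left]
  · unfold ent
    rw [Fin.cons_succ, Fin.append_right]

/-- The tori over the first embedding. -/
theorem exists_A (hA : A.Cyc) (hB : B.Cyc) (t : ∀ j, Fin (B.r j)) :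
    ∃ c : ℝ, c ≠ 0 ∧ ∀ ε : ℝ, 0 < ε → ∃ Λ : ℝ, 1 < Λ ∧ ∀ lam : K, Λ ≤ ‖σ lam‖ →
      ∃ Γ : Torus (TOpen A B lam) (n + 1 + s),
        (∀ θ, ∃ (z : Fin (s + 1) → ℂ) (x : Fin (n + 1) → ℂ),
          (∀ q, Γ.e θ (opol _ _ q) = eval₂ σ (Sum.elim z x) q) ∧
          ∃ i, eval₂ σ (Sum.elim z x) (pderiv i (teqn A B lam)) ≠ 0) ∧
        (∀ κ, |Γ.reg (symb (symA A B lam κ)) / Real.log ‖σ lam‖ - if κ = t then c else 0| ≤ ε) ∧
        ∀ κ, |Γ.reg (symb (symB A B lam κ)) / Real.log ‖σ lam‖| ≤ ε := by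
  obtain ⟨c, hc, h⟩ := exists_side (A.map σ) (B.map σ) (hA.map σ) (hB.map σ) t
    (N := n + 1 + s) rfl
  refine ⟨c, hc, fun ε hε => ?_⟩
  obtain ⟨Λ, hΛ, h⟩ := h ε hε
  refine ⟨Λ, hΛ, fun lam hl => ?_⟩
  obtain ⟨z, x, h1, h2, h3, h4, h5, h6, h7, h8⟩ := h (σ lam) hl
  obtain ⟨Γ, g1, g2, g3⟩ := exists_torus σ (lam := lam) z x h1 h2 h3 (fun θ => (h4 θ).1) h5 h6
  refine ⟨Γ, fun θ => ⟨z θ, x θ, g1 θ, Sum.inl 0, ?_⟩, fun κ => ?_, fun κ => ?_⟩
  · rw [eval₂_eq_ic, ← pderiv_map, map_teqn]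
    exact (h4 θ).2
  · rw [g2]
    exact h7 κ
  · rw [g3]
    refine h8 κ _ fun m => ?_
    rcases ent_cases (R := ℂ) (s := n) (n := s) (fun _ => 0) (fun _ => 0)
      (Fin.cast (by omega) m) with ⟨i, hi⟩ | ⟨j, hj⟩
    · refine Or.inl ⟨i, ?_⟩
      funext θ
      exact hi _ _
    · refine Or.inr ⟨j, ?_⟩
      funext θ
      exact hj _ _

/-- The tori over the second embedding. -/
theorem exists_B (hA : A.Cyc) (hB : B.Cyc) (t : ∀ i, Fin (A.r i)) :
    ∃ c : ℝ, c ≠ 0 ∧ ∀ ε : ℝ, 0 < ε → ∃ Λ : ℝ, 1 < Λ ∧ ∀ lam : K, Λ ≤ ‖σ lam⁻¹‖ →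
      ∃ Γ : Torus (TOpen A B lam) (n + 1 + s),
        (∀ θ, ∃ (z : Fin (s + 1) → ℂ) (x : Fin (n + 1) → ℂ),
          (∀ q, Γ.e θ (opol _ _ q) = eval₂ σ (Sum.elim z x) q) ∧
          ∃ i, eval₂ σ (Sum.elim z x) (pderiv i (teqn A B lam)) ≠ 0) ∧
        (∀ κ, |Γ.reg (symb (symB A B lam κ)) / Real.log ‖σ lam⁻¹‖ -
          if κ = t then c else 0| ≤ ε) ∧
        ∀ κ, |Γ.reg (symb (symA A B lam κ)) / Real.log ‖σ lam⁻¹‖| ≤ ε := by
  obtain ⟨c, hc, h⟩ := exists_side (B.map σ) (A.map σ) (hB.map σ) (hA.map σ) t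
    (N := n + 1 + s) (by omega)
  refine ⟨c, hc, fun ε hε => ?_⟩
  obtain ⟨Λ, hΛ, h⟩ := h ε hε
  refine ⟨Λ, hΛ, fun lam hl => ?_⟩
  have hl0 : σ lam ≠ 0 := by
    intro h0
    rw [map_inv₀, h0, inv_zero, norm_zero] at hl
    linarith
  obtain ⟨x, z, h1, h2, h3, h4, h5, h6, h7, h8⟩ := h (σ lam⁻¹) hl
  have hsw : rename Sum.swap (teqn (B.map σ) (A.map σ) (σ lam⁻¹)) =
      C (-(σ lam)⁻¹) * teqn (A.map σ) (B.map σ) (σ lam) := by
    rw [map_inv₀]
    exact rename_swap_teqn hl0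
  have hel : ∀ θ, Sum.elim (z θ) (x θ) ∘ Sum.swap = Sum.elim (x θ) (z θ) := by
    intro θ
    funext i
    rcases i with i | i <;> rfl
  have hne : -(σ lam)⁻¹ ≠ 0 := neg_ne_zero.2 (inv_ne_zero hl0)
  obtain ⟨Γ, g1, g2, g3⟩ := exists_torus σ (lam := lam) z x h2 h1 (fun θ m => (h3 θ m).symm)
    (fun θ => by
      have h9 := (h4 θ).1
      rw [← hel, ← eval₂_rename, hsw, eval₂_mul, eval₂_C] at h9
      exact (mul_eq_zero.1 h9).resolve_left hne) h6 h5
  refine ⟨Γ, fun θ => ⟨z θ, x θ, g1 θ, Sum.inr 0, ?_⟩, fun κ => ?_, fun κ => ?_⟩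
  · rw [eval₂_eq_ic, ← pderiv_map, map_teqn]
    intro h0
    apply (h4 θ).2
    rw [← hel, ← eval₂_rename, ← pderiv_rename Sum.swap_leftInverse.injective, hsw,
      pderiv_C_mul, eval₂_mul, eval₂_C]
    show _ * eval₂ ic _ (pderiv (Sum.inr 0) _) = 0
    rw [h0, mul_zero]
  · rw [g3]
    exact h7 κ
  · rw [g2]
    refine h8 κ _ fun m => ?_
    rcases ent_cases (R := ℂ) (s := s) (n := n) (fun _ => 0) (fun _ => 0) m with
      ⟨i, hi⟩ | ⟨j, hj⟩
    · refine Or.inl ⟨i, ?_⟩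
      funext θ
      exact hi _ _
    · refine Or.inr ⟨j, ?_⟩
      funext θ
      exact hj _ _

end torus

/-- The entries of the symbols of both kinds. -/
noncomputable def sym (A : Side K s) (B : Side K n) (lam : K) :
    (∀ j, Fin (B.r j)) ⊕ (∀ i, Fin (A.r i)) → Fin (n + 1 + s + 1) → (TOpen A B lam)ˣ :=
  Sum.elim (symA A B lam) (symB A B lam)

/-- The tori over the two embeddings and the regulators of the symbols of both kinds. -/
theorem exists_tori (σ σ' : K →+* ℂ) {A : Side K s} {B : Side K n} (hA : A.Cyc) (hB : B.Cyc) :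
    ∃ C : ℝ, 1 < C ∧ ∀ lam : K, C ≤ ‖σ lam‖ → C ≤ ‖σ' lam⁻¹‖ →
      ∃ Γ : (∀ j, Fin (B.r j)) ⊕ (∀ i, Fin (A.r i)) → Torus (TOpen A B lam) (n + 1 + s),
        (∀ t θ, ∃ (z : Fin (s + 1) → ℂ) (x : Fin (n + 1) → ℂ),
          (∀ q, (Γ t).e θ (opol _ _ q) =
            eval₂ (Sum.elim (fun _ => σ) (fun _ => σ') t) (Sum.elim z x) q) ∧
          ∃ i, eval₂ (Sum.elim (fun _ => σ) (fun _ => σ') t) (Sum.elim z x)
            (pderiv i (teqn A B lam)) ≠ 0) ∧
        (Matrix.of fun t κ => (Γ t).reg (symb (sym A B lam κ))).det ≠ 0 := by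
  classical
  choose cA hcA hA' using exists_A σ hA hB
  choose cB hcB hB' using exists_B σ' hA hB
  set c : (∀ j, Fin (B.r j)) ⊕ (∀ i, Fin (A.r i)) → ℝ := Sum.elim cA cB with hc
  have hc0 : ∀ t, c t ≠ 0 := by
    rintro (t | t)
    · exact hcA t
    · exact hcB t
  have hdet : (Matrix.diagonal c).det ≠ 0 := by
    rw [Matrix.det_diagonal]
    exact Finset.prod_ne_zero_iff.2 fun t _ => hc0 t
  obtain ⟨δ, hδ, hnear⟩ := det_ne_zero_near _ hdet
  choose ΛA hΛA1 hΛA using fun t => hA' t (δ / 2) (by linarith)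
  choose ΛB hΛB1 hΛB using fun t => hB' t (δ / 2) (by linarith)
  set C : ℝ := ∑ t, |ΛA t| + ∑ t, |ΛB t| + 2 with hC
  have hsA : 0 ≤ ∑ t, |ΛA t| := Finset.sum_nonneg fun J _ => abs_nonneg _
  have hsB : 0 ≤ ∑ t, |ΛB t| := Finset.sum_nonneg fun J _ => abs_nonneg _
  have hCA : ∀ t, ΛA t ≤ C := by
    intro t
    have h1 : |ΛA t| ≤ ∑ t, |ΛA t| := Finset.single_le_sum (f := fun t => |ΛA t|)
      (fun t _ => abs_nonneg _) (Finset.mem_univ t)
    have h2 := le_abs_self (ΛA t)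
    linarith
  have hCB : ∀ t, ΛB t ≤ C := by
    intro t
    have h1 : |ΛB t| ≤ ∑ t, |ΛB t| := Finset.single_le_sum (f := fun t => |ΛB t|)
      (fun t _ => abs_nonneg _) (Finset.mem_univ t)
    have h2 := le_abs_self (ΛB t)
    linarith
  refine ⟨C, by linarith, fun lam hl hl' => ?_⟩
  choose ΓA a1 a2 a3 using fun t => hΛA t lam ((hCA t).trans hl)
  choose ΓB b1 b2 b3 using fun t => hΛB t lam ((hCB t).trans hl')
  refine ⟨Sum.elim ΓA ΓB, ?_, ?_⟩
  · rintro (t | t) θ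
    · exact a1 t θ
    · exact b1 t θ
  have hL1 : 0 < Real.log ‖σ lam‖ := Real.log_pos (by linarith)
  have hL2 : 0 < Real.log ‖σ' lam⁻¹‖ := Real.log_pos (by linarith)
  set L : (∀ j, Fin (B.r j)) ⊕ (∀ i, Fin (A.r i)) → ℝ :=
    Sum.elim (fun _ => Real.log ‖σ lam‖) (fun _ => Real.log ‖σ' lam⁻¹‖) with hL
  have hL0 : ∀ t, L t ≠ 0 := by
    rintro (t | t)
    · exact hL1.ne'
    · exact hL2.ne'
  have h1 : (Matrix.of fun t κ : (∀ j, Fin (B.r j)) ⊕ (∀ i, Fin (A.r i)) =>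
      (Sum.elim ΓA ΓB t).reg (symb (sym A B lam κ)) / L t).det ≠ 0 := by
    refine hnear _ fun t κ => ?_
    rw [Matrix.of_apply, Matrix.diagonal_apply]
    have hδ2 : δ / 2 < δ := by linarith
    rcases t with t | t <;> rcases κ with κ | κ
    · have h2 := a2 t κ
      have h3 : (if (Sum.inl t : (∀ j, Fin (B.r j)) ⊕ (∀ i, Fin (A.r i))) = Sum.inl κ
          then c (Sum.inl t) else 0) = if κ = t then cA t else 0 := by
        by_cases h : κ = t
        · rw [if_pos h, if_pos (by rw [h])]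
          rfl
        · rw [if_neg h, if_neg fun e => h (Sum.inl_injective e).symm]
      rw [h3]
      exact lt_of_le_of_lt h2 hδ2
    · have h2 := a3 t κ
      rw [if_neg (by simp), sub_zero]
      exact lt_of_le_of_lt h2 hδ2
    · have h2 := b3 t κ
      rw [if_neg (by simp), sub_zero]
      exact lt_of_le_of_lt h2 hδ2
    · have h2 := b2 t κ
      have h3 : (if (Sum.inr t : (∀ j, Fin (B.r j)) ⊕ (∀ i, Fin (A.r i))) = Sum.inr κ
          then c (Sum.inr t) else 0) = if κ = t then cB t else 0 := by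
        by_cases h : κ = t
        · rw [if_pos h, if_pos (by rw [h])]
          rfl
        · rw [if_neg h, if_neg fun e => h (Sum.inr_injective e).symm]
      rw [h3]
      exact lt_of_le_of_lt h2 hδ2
  have h2 : (Matrix.of fun t κ : (∀ j, Fin (B.r j)) ⊕ (∀ i, Fin (A.r i)) =>
      (Sum.elim ΓA ΓB t).reg (symb (sym A B lam κ))) = Matrix.of fun t κ => L t *
      (Matrix.of fun t κ : (∀ j, Fin (B.r j)) ⊕ (∀ i, Fin (A.r i)) =>
        (Sum.elim ΓA ΓB t).reg (symb (sym A B lam κ)) / L t) t κ := by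
    ext t κ
    rw [Matrix.of_apply, Matrix.of_apply, Matrix.of_apply]
    have h3 := hL0 t
    field_simp
  rw [h2, Matrix.det_mul_column]
  exact mul_ne_zero (Finset.prod_ne_zero_iff.2 fun t _ => hL0 t) h1

end map

end Pool.Agent.Q16.TS
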