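import Pool.Agent.Q16.TS.Alg
import Pool.Agent.Q16.TS.Big
set_option autoImplicit false

/-!
Tori in the hypersurfaces `x ^ l P(z) = λ z ^ k Q(x)` for large `λ`: the regulators of the symbols of
the first kind are close to multiples of `log |λ|`, those of the symbols of the second kind are
small.
-/

namespace Pool.Agent.Q16.TS

open MvPolynomial

open Pool.Agent.Q16.LS

open Pool.Agent.Q16.UF (LexLead good_tpt)

open Pool.Agent.TH826.MK

open Pool.Agent.TH826.SX (pairing_close)

theorem eval_uv {K : Type*} [Field K] {n : ℕ} (σ : K →+* ℂ) (x : Fin n → ℂ) (j : Fin n)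
    (q : Polynomial K) : eval₂ σ x (uv j q) = q.eval₂ σ (x j) := by
  unfold uv
  rw [← coe_eval₂Hom, Polynomial.aeval_def, Polynomial.hom_eval₂, coe_eval₂Hom, eval₂_X]
  congr 1
  refine RingHom.ext fun c => ?_
  rw [RingHom.comp_apply, algebraMap_eq, coe_eval₂Hom, eval₂_C]

/-- The quotients of powers of the factors. -/
noncomputable def rt {n : ℕ} (A : Side ℂ n) (κ : ∀ j, Fin (A.r j)) (j : Fin (n + 1)) (y : ℂ) : ℂ :=
  (A.h j (κ j).succ).eval y ^ (A.h j 0).natDegree / (A.h j 0).eval y ^ (A.h j (κ j).succ).natDegree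

variable {s n : ℕ}

/-- The tori of a side. -/
theorem exists_side (A : Side ℂ s) (B : Side ℂ n) (hA : A.Cyc) (hB : B.Cyc)
    (t : ∀ j, Fin (B.r j)) {N : ℕ} (hN : n + 1 + s = N) :
    ∃ c : ℝ, c ≠ 0 ∧ ∀ ε : ℝ, 0 < ε → ∃ Λ : ℝ, 1 < Λ ∧ ∀ l : ℂ, Λ ≤ ‖l‖ →
      ∃ (z : (Fin N → ℝ) → Fin (s + 1) → ℂ) (x : (Fin N → ℝ) → Fin (n + 1) → ℂ),
        (∀ i, Good fun θ => z θ i) ∧ (∀ j, Good fun θ => x θ j) ∧
        (∀ θ m, z (θ + Pi.single m 1) = z θ ∧ x (θ + Pi.single m 1) = x θ) ∧
        (∀ θ, eval₂ ic (Sum.elim (z θ) (x θ)) (teqn A B l) = 0 ∧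
          eval₂ ic (Sum.elim (z θ) (x θ)) (pderiv (Sum.inl 0) (teqn A B l)) ≠ 0) ∧
        (∀ θ i a, (A.h i a).eval (z θ i) ≠ 0) ∧ (∀ θ j a, (B.h j a).eval (x θ j) ≠ 0) ∧
        (∀ κ, |pairing (fun (m : Fin (N + 1)) θ => ent (z θ) (fun j => rt B κ j (x θ j))
          (Fin.cast (by omega) m)) / Real.log ‖l‖ - if κ = t then c else 0| ≤ ε) ∧
        ∀ κ (f : Fin (N + 1) → (Fin N → ℝ) → ℂ),
          (∀ m, (∃ j, f m = fun θ => x θ j) ∨ ∃ i, f m = fun θ => rt A κ i (z θ i)) →
          |pairing f / Real.log ‖l‖| ≤ ε := by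
  classical
  subst hN
  -- the roots
  have hroot : ∀ j, ∃ α : ℂ, (B.h j (t j).succ).eval α = 0 := by
    intro j
    refine IsAlgClosed.exists_root _ ?_
    rw [Polynomial.degree_eq_natDegree (hB.monic j _).ne_zero]
    exact_mod_cast (hB.pos j _).ne'
  choose α hα using hroot
  have hα0 : ∀ j, α j ≠ 0 := by
    intro j h0
    obtain ⟨m, hm, h1⟩ := hB.eval_zero j (t j).succ
    rw [← h0, hα, zero_pow hm] at h1
    exact zero_ne_one h1
  have hmult : ∀ j a, a ≠ (t j).succ → (B.h j a).rootMultiplicity (α j) = 0 := by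
    intro j a hne
    refine Polynomial.rootMultiplicity_eq_zero fun hr => ?_
    obtain ⟨u, c, hac⟩ := hB.coprime j _ _ hne
    have h1 := congrArg (Polynomial.eval (α j)) hac
    rw [Polynomial.eval_add, Polynomial.eval_mul, Polynomial.eval_mul,
      hα, hr.eq_zero, mul_zero, mul_zero, add_zero, Polynomial.eval_one] at h1
    exact zero_ne_one h1
  have hmult1 : ∀ j, 0 < (B.h j (t j).succ).rootMultiplicity (α j) := fun j =>
    (Polynomial.rootMultiplicity_pos (hB.monic j _).ne_zero).2 (hα j)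
  set Vn : (∀ j, Fin (B.r j)) → Fin (n + 1) → Fin (n + 1) →₀ ℕ := fun κ j =>
    Finsupp.single j ((B.h j 0).natDegree * (B.h j (κ j).succ).rootMultiplicity (α j)) with hVn
  set Vd : (∀ j, Fin (B.r j)) → Fin (n + 1) → Fin (n + 1) →₀ ℕ := fun κ j =>
    Finsupp.single j ((B.h j (κ j).succ).natDegree * (B.h j 0).rootMultiplicity (α j)) with hVd
  set dg : ℝ := ∏ j, (((B.h j 0).natDegree : ℝ) *
    (B.h j (t j).succ).rootMultiplicity (α j)) with hdg
  have hdg0 : dg ≠ 0 := by
    refine Finset.prod_ne_zero_iff.2 fun j _ => mul_ne_zero ?_ ?_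
    · exact_mod_cast (hB.pos j 0).ne'
    · exact_mod_cast (hmult1 j).ne'
  have hdet : ∀ κ, (Matrix.of fun j j' : Fin (n + 1) => (Vn κ j j' : ℝ) - Vd κ j j').det =
      if κ = t then dg else 0 := by
    intro κ
    have h1 : (Matrix.of fun j j' : Fin (n + 1) => (Vn κ j j' : ℝ) - Vd κ j j') =
        Matrix.diagonal fun j => ((B.h j 0).natDegree : ℝ) *
          (B.h j (κ j).succ).rootMultiplicity (α j) := by
      ext j j'
      rw [Matrix.of_apply, Matrix.diagonal_apply, hVn, hVd]
      simp only [hmult j 0 (Fin.succ_ne_zero _).symm, mul_zero, Finsupp.single_zero,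
        Finsupp.coe_zero, Pi.zero_apply, Nat.cast_zero, sub_zero]
      by_cases hjj : j = j'
      · subst hjj
        rw [Finsupp.single_eq_same, if_pos rfl, Nat.cast_mul]
      · rw [Finsupp.single_eq_of_ne (Ne.symm hjj), if_neg hjj, Nat.cast_zero]
    rw [h1, Matrix.det_diagonal]
    by_cases htk : κ = t
    · rw [if_pos htk, hdg, htk]
    · rw [if_neg htk]
      obtain ⟨j, hj⟩ := Function.ne_iff.1 htk
      refine Finset.prod_eq_zero (Finset.mem_univ j) ?_
      rw [hmult j (κ j).succ fun e => hj (Fin.succ_injective _ e), Nat.cast_zero, mul_zero]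
  set D0 : ℝ := (2 * Real.pi) ^ (n + 1 + s) with hD0
  have hpi := Real.pi_pos
  have hD : D0 ≠ 0 := by positivity
  refine ⟨D0 * dg, mul_ne_zero hD hdg0, fun ε hε => ?_⟩
  obtain ⟨δ, hδ, hclose⟩ := pairing_close
    (0 : Matrix (Fin (n + 1 + s + 1)) (Fin (n + 1 + s + 1)) ℝ) hε
  -- the exponents
  set E : ℝ := ∑ i, ∑ a, ((A.h i a).natDegree : ℝ) with hE
  have hE0 : 0 ≤ E := Finset.sum_nonneg fun i _ => Finset.sum_nonneg fun a _ => Nat.cast_nonneg _
  have hEle : ∀ i a, ((A.h i a).natDegree : ℝ) ≤ E := fun i a =>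
    (Finset.single_le_sum (f := fun a => ((A.h i a).natDegree : ℝ))
      (fun a _ => Nat.cast_nonneg _) (Finset.mem_univ a)).trans
    (Finset.single_le_sum (f := fun i => ∑ a, ((A.h i a).natDegree : ℝ))
      (fun i _ => Finset.sum_nonneg fun a _ => Nat.cast_nonneg _) (Finset.mem_univ i))
  set δ1 : ℝ := δ / (2 * E + 2) with hδ1
  have hδ10 : 0 < δ1 := by positivity
  have hδE : (2 * E + 1) * δ1 < δ := by
    rw [hδ1, mul_div_assoc', div_lt_iff₀ (by positivity)]
    nlinarith
  have hδ1δ : δ1 < δ := by nlinarith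
  -- the other functions on the torus
  set ext : Fin (n + 1) ⊕ ((i : Fin s) × Fin (A.r i.succ + 1)) →
      MvPolynomial (Fin (n + 1 + s)) ℂ := Sum.elim
    (fun j => rename (Fin.castAdd s) (tr α (X j)))
    (fun e => uv (Fin.natAdd (n + 1) e.1) (A.h e.1.succ e.2)) with hext
  have hXuv : ∀ j : Fin (n + 1), (X j : MvPolynomial (Fin (n + 1)) ℂ) = uv j Polynomial.X := by
    intro j
    unfold uv
    rw [Polynomial.aeval_X]
  have hx : ∀ e, LexLead (ext e) 0 := by
    rintro (j | ⟨i, a⟩)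
    · have h1 := lexLead_tr_uv α j (q := Polynomial.X) Polynomial.X_ne_zero
      rw [Polynomial.rootMultiplicity_eq_zero (by
        rw [Polynomial.IsRoot, Polynomial.eval_X]
        exact hα0 j), Finsupp.single_zero] at h1
      have h2 := LexLead.rename h1 s
      rw [Finsupp.mapDomain_zero, ← hXuv] at h2
      exact h2
    · have hne : (A.h i.succ a).coeff 0 ≠ 0 := by
        intro h0
        obtain ⟨m, hm, h1⟩ := hA.eval_zero i.succ a
        rw [← Polynomial.coeff_zero_eq_eval_zero, h0, zero_pow hm] at h1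
        exact zero_ne_one h1
      have h1 := lexLead_uv (Fin.natAdd (n + 1) i) (hA.monic i.succ a).ne_zero
      rw [Polynomial.natTrailingDegree_eq_zero.2 (Or.inr hne), Finsupp.single_zero] at h1
      exact h1
  obtain ⟨R, Λ0, C0, hR, hΛ0, hC0, hextb, -, hz⟩ := exists_fun (ι := ∀ j, Fin (B.r j))
    (p := A.P) hA.degree (H := rename Sum.inl A.M)
    ((map_ne_zero_iff _ (rename_injective _ Sum.inl_injective)).2 A.M_ne_zero)
    ((degreeOf_rename_inl A.M).trans A.degreeOf_M) (tr α) (tr fun j => -α j) (tr_tr _)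
    (φ := B.P) (D := B.M) hB.P_ne_zero B.M_ne_zero
    (fun κ j => uv j (B.h j (κ j).succ ^ (B.h j 0).natDegree))
    (fun κ j => uv j (B.h j 0 ^ (B.h j (κ j).succ).natDegree)) Vn Vd
    (fun κ j => by
      have h1 := lexLead_tr_uv α j (pow_ne_zero (B.h j 0).natDegree (hB.monic j (κ j).succ).ne_zero)
      rw [rootMultiplicity_pow' _ (hB.monic j (κ j).succ).ne_zero] at h1
      exact h1)
    (fun κ j => by
      have h1 := lexLead_tr_uv α j (pow_ne_zero (B.h j (κ j).succ).natDegree
        (hB.monic j 0).ne_zero)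
      rw [rootMultiplicity_pow' _ (hB.monic j 0).ne_zero] at h1
      exact h1)
    ext (fun _ => 0) hx hε hδ10
  -- large arguments
  have hbig := fun a => exists_big (hA.monic 0 a) (δ := δ1 / (C0 + 1)) (by positivity)
  choose Bb hBb1 hBb using hbig
  set Bs : ℝ := ∑ a, Bb a with hBs
  have hBble : ∀ a, Bb a ≤ Bs := fun a => Finset.single_le_sum (f := Bb)
    (fun a _ => by linarith [hBb1 a]) (Finset.mem_univ a)
  have hBs0 : 0 ≤ Bs := Finset.sum_nonneg fun a _ => by linarith [hBb1 a]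
  set Q : ℝ := (2 * E + 1) * (C0 + 1) with hQ
  have hQ0 : 0 ≤ Q := by positivity
  refine ⟨Λ0 + Bs * Real.exp C0 + Real.exp (Q / δ + 1), by
    have h1 := Real.exp_pos (Q / δ + 1)
    have h2 : 0 ≤ Bs * Real.exp C0 := by positivity
    linarith, fun l hl => ?_⟩
  have hexp := Real.exp_pos (Q / δ + 1)
  have hBe : 0 ≤ Bs * Real.exp C0 := by positivity
  have hln : 0 < ‖l‖ := by linarith
  set Lg : ℝ := Real.log ‖l‖ with hLg
  have hLgQ : Q / δ + 1 ≤ Lg := by
    rw [hLg, Real.le_log_iff_exp_le hln]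
    linarith
  have hLg0 : 0 < Lg := by
    have : 0 ≤ Q / δ := by positivity
    linarith
  have hQL : Q < Lg * δ := by
    have h1 : Q / δ < Lg := by linarith
    rwa [div_lt_iff₀ hδ] at h1
  obtain ⟨z0, z1, z2, z3, z4, z5, z6, z7, z8⟩ := hz l (by linarith)
  set y : (Fin (n + 1 + s) → ℝ) → (Fin (s + 1) ⊕ Fin (n + 1) → ℂ) :=
    fun θ => pt (tr α) ic R (z0 θ) θ with hy
  have helim : ∀ θ, Sum.elim (fun i => y θ (Sum.inl i)) (fun j => y θ (Sum.inr j)) = y θ := by
    intro θ
    funext i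
    rcases i with i | i <;> rfl
  have hyx : ∀ θ j, y θ (Sum.inr j) =
      eval₂ ic (tpt R θ) (ext (Sum.inl j)) := fun θ j => pt_inr _ _ _ _ _ _
  have hBev : ∀ θ j (q : Polynomial ℂ), q.eval (y θ (Sum.inr j)) =
      eval₂ ic (tpt R θ) (rename (Fin.castAdd s) (tr α (uv j q))) := by
    intro θ j q
    rw [← eval_pt_rename (tr α) ic R (z0 θ) θ (uv j q), eval_uv]
    rfl
  have hzi : ∀ θ (i : Fin s), y θ (Sum.inl i.succ) = tpt R θ (Fin.natAdd (n + 1) i) :=
    fun θ i => pt_succ _ _ _ _ _ _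
  have hAev : ∀ θ (i : Fin s) a, (A.h i.succ a).eval (y θ (Sum.inl i.succ)) =
      eval₂ ic (tpt R θ) (ext (Sum.inr ⟨i, a⟩)) := by
    intro θ i a
    rw [hzi, hext, Sum.elim_inr, eval_uv]
    rfl
  have hgz : ∀ i, Good fun θ => y θ (Sum.inl i) := by
    intro i
    refine Fin.cases z1 (fun i => ?_) i
    simp only [hzi]
    exact good_tpt hR _
  have hgx : ∀ j, Good fun θ => y θ (Sum.inr j) := by
    intro j
    simp only [hyx]
    exact (hextb (Sum.inl j)).1
  -- the factors in `z_0`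
  have hz0n : ∀ θ, Bs ≤ ‖z0 θ‖ := by
    intro θ
    have h1 := z5 θ
    have h2 : Lg - C0 ≤ Real.log ‖z0 θ‖ := by
      have := (abs_le.1 h1).1
      linarith
    have h3 : ‖l‖ * Real.exp (-C0) ≤ ‖z0 θ‖ := by
      rw [← Real.exp_log hln, ← Real.exp_add, ← Real.exp_log (norm_pos_iff.2 (z1.ne_zero θ)),
        Real.exp_le_exp]
      linarith
    refine le_trans ?_ h3
    rw [Real.exp_neg, ← div_eq_mul_inv, le_div_iff₀ (Real.exp_pos _)]
    linarith
  have hA0 : ∀ θ a, (A.h 0 a).eval (z0 θ) ≠ 0 := fun θ a =>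
    (hBb a (z0 θ) ((hBble a).trans (hz0n θ))).1
  have hAne : ∀ θ i a, (A.h i a).eval (y θ (Sum.inl i)) ≠ 0 := by
    intro θ i a
    revert a
    refine Fin.cases (fun a => hA0 θ a) (fun i a => ?_) i
    rw [hAev]
    exact (hextb (Sum.inr ⟨i, a⟩)).1.ne_zero θ
  have hBne : ∀ θ j a, (B.h j a).eval (y θ (Sum.inr j)) ≠ 0 := by
    intro θ j a h0
    have h1 := (z4 θ).1
    rw [← eval_pt_rename (tr α) ic R (z0 θ) θ B.P] at h1
    refine h1 ?_
    obtain ⟨q, hq⟩ := B.dvd_P j a
    rw [hq, eval₂_mul, eval_uv]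
    have h2 : (B.h j a).eval₂ ic (pt (tr α) ic R (z0 θ) θ (Sum.inr j)) = 0 := h0
    rw [h2, zero_mul]
  refine ⟨fun θ i => y θ (Sum.inl i), fun θ j => y θ (Sum.inr j), hgz, hgx, fun θ m => ?_,
    fun θ => ?_, hAne, hBne, fun κ => ?_, fun κ f hf => ?_⟩
  · have h1 : tpt R (θ + Pi.single m 1) = tpt R θ := tpt_add_single _ _ _
    refine ⟨?_, ?_⟩
    · funext i
      refine Fin.cases (z2 θ m) (fun i => ?_) i
      simp only [hzi, h1]
    · funext j
      simp only [hyx, h1]
  · rw [helim]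
    exact z3 θ
  · have h1 := z8 κ
    rw [hdet] at h1
    have h2 : (fun (m : Fin (n + 1 + s + 1)) (θ : Fin (n + 1 + s) → ℝ) =>
        ent (fun i => y θ (Sum.inl i)) (fun j => rt B κ j (y θ (Sum.inr j))) (Fin.cast rfl m)) =
        tfn (tr α) R (fun j => uv j (B.h j (κ j).succ ^ (B.h j 0).natDegree))
          (fun j => uv j (B.h j 0 ^ (B.h j (κ j).succ).natDegree)) z0 := by
      funext m
      rw [Fin.cast_eq_self]
      refine Fin.cases rfl (fun m => ?_) m
      unfold tfn ent
      rw [Fin.cons_succ]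
      funext θ
      rw [Fin.cons_succ]
      refine Fin.addCases (fun j => ?_) (fun i => ?_) m
      · rw [Fin.append_left, Fin.append_left, ← hBev, ← hBev, Polynomial.eval_pow,
          Polynomial.eval_pow, ← div_eq_mul_inv]
        rfl
      · rw [Fin.append_right, Fin.append_right]
        exact hzi θ i
    have h3 : (if κ = t then D0 * dg else 0) = D0 * if κ = t then dg else 0 := by
      rw [mul_ite, mul_zero]
    rw [h3]
    rw [← h2] at h1
    exact h1
  · have key : ∀ m, Good (f m) ∧ (∀ θ, |Real.log ‖f m θ‖| ≤ Q) ∧ ∀ j θ, ‖lw (f m) j θ‖ < δ := by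
      intro m
      rcases hf m with ⟨j, hj⟩ | ⟨i, hi⟩
      · rw [hj]
        obtain ⟨e1, e2, e3⟩ := hextb (Sum.inl j)
        refine ⟨hgx j, fun θ => ?_, fun j' θ => ?_⟩
        · show |Real.log ‖y θ (Sum.inr j)‖| ≤ Q
          rw [hyx]
          refine (e2 θ).trans ?_
          nlinarith
        · have h1 := e3 j' θ
          simp only [Finsupp.coe_zero, Pi.zero_apply, Nat.cast_zero, Complex.ofReal_zero, mul_zero,
            sub_zero] at h1
          simp only [hyx]
          exact lt_of_le_of_lt h1 hδ1δ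
      · rw [hi]
        have hg0 : ∀ a, Good fun θ => (A.h i a).eval (y θ (Sum.inl i)) := fun a =>
          good_poly (hgz i) fun θ => hAne θ i a
        have h1 := good_quot (hg0 0) (hg0 (κ i).succ) (A.h i 0).natDegree
          (A.h i (κ i).succ).natDegree
        have h2 := log_quot (hg0 0) (hg0 (κ i).succ) (A.h i 0).natDegree
          (A.h i (κ i).succ).natDegree
        have h3 := lw_quot (hg0 0) (hg0 (κ i).succ) (A.h i 0).natDegree
          (A.h i (κ i).succ).natDegree
        have hd0 := hEle i 0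
        have hd1 := hEle i (κ i).succ
        set d0 : ℝ := ((A.h i 0).natDegree : ℝ) with hd0'
        set d1 : ℝ := ((A.h i (κ i).succ).natDegree : ℝ) with hd1'
        have hd00 : 0 ≤ d0 := Nat.cast_nonneg _
        have hd10 : 0 ≤ d1 := Nat.cast_nonneg _
        -- approximations by a common function
        obtain ⟨u, hu1, hu2⟩ : ∃ (u : ℕ → (Fin (n + 1 + s) → ℝ) → ℝ × (Fin (n + 1 + s) → ℂ)),
            (∀ a θ, |Real.log ‖(A.h i a).eval (y θ (Sum.inl i))‖ -
              (A.h i a).natDegree * (u 0 θ).1| ≤ C0 + 1) ∧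
            ∀ a j θ, ‖lw (fun θ => (A.h i a).eval (y θ (Sum.inl i))) j θ -
              (A.h i a).natDegree * (u 0 θ).2 j‖ ≤ δ1 := by
          revert hg0
          refine Fin.cases (fun hg0 => ?_) (fun i hg0 => ?_) i
          · refine ⟨fun _ θ => (Real.log ‖z0 θ‖, fun j => lw z0 j θ), fun a θ => ?_,
              fun a j θ => ?_⟩
            · refine ((hBb a (z0 θ) ((hBble a).trans (hz0n θ))).2.1).trans ?_
              linarith
            · have h4 := lw_poly z1 (fun θ => hA0 θ a) j θ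
              have h5 : lw (fun θ => (A.h 0 a).eval (y θ (Sum.inl 0))) j θ =
                  lw (fun θ => (A.h 0 a).eval (z0 θ)) j θ := rfl
              rw [h5, h4, ← sub_mul, norm_mul]
              have h6 := (hBb a (z0 θ) ((hBble a).trans (hz0n θ))).2.2
              calc _ ≤ δ1 / (C0 + 1) * C0 := mul_le_mul h6 (z6 j θ) (norm_nonneg _) (by positivity)
                _ ≤ δ1 := by
                    rw [div_mul_eq_mul_div, div_le_iff₀ (by positivity)]
                    nlinarith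
          · refine ⟨fun _ θ => (0, fun j => 0), fun a θ => ?_, fun a j θ => ?_⟩
            · rw [mul_zero, sub_zero, hAev]
              refine ((hextb (Sum.inr ⟨i, a⟩)).2.1 θ).trans ?_
              linarith
            · have h4 := (hextb (Sum.inr ⟨i, a⟩)).2.2 j θ
              simp only [Finsupp.coe_zero, Pi.zero_apply, Nat.cast_zero, Complex.ofReal_zero,
                mul_zero, sub_zero] at h4
              simp only [hAev, mul_zero, sub_zero]
              exact h4
        refine ⟨h1, fun θ => ?_, fun j θ => ?_⟩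
        · have h4 := hu1 (κ i).succ θ
          have h5 := hu1 0 θ
          have h6 : Real.log ‖rt A κ i (y θ (Sum.inl i))‖ =
              d0 * (Real.log ‖(A.h i (κ i).succ).eval (y θ (Sum.inl i))‖ - d1 * (u 0 θ).1) -
              d1 * (Real.log ‖(A.h i 0).eval (y θ (Sum.inl i))‖ - d0 * (u 0 θ).1) := by
            unfold rt
            rw [h2 θ]
            ring
          rw [h6]
          refine (abs_sub _ _).trans ?_
          rw [abs_mul, abs_mul, abs_of_nonneg hd00, abs_of_nonneg hd10]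
          have h7 := mul_le_mul hd0 h4 (abs_nonneg _) hE0
          have h8 := mul_le_mul hd1 h5 (abs_nonneg _) hE0
          nlinarith
        · have h4 := hu2 (κ i).succ j θ
          have h5 := hu2 0 j θ
          have h6 : lw (fun θ => rt A κ i (y θ (Sum.inl i))) j θ =
              (d0 : ℂ) * (lw (fun θ => (A.h i (κ i).succ).eval (y θ (Sum.inl i))) j θ -
                ((A.h i (κ i).succ).natDegree : ℂ) * (u 0 θ).2 j) -
              (d1 : ℂ) * (lw (fun θ => (A.h i 0).eval (y θ (Sum.inl i))) j θ -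
                ((A.h i 0).natDegree : ℂ) * (u 0 θ).2 j) := by
            unfold rt
            rw [h3 j θ, hd0', hd1']
            push_cast
            ring
          rw [h6]
          refine lt_of_le_of_lt (norm_sub_le _ _) ?_
          rw [norm_mul, norm_mul, Complex.norm_real, Complex.norm_real, Real.norm_of_nonneg hd00,
            Real.norm_of_nonneg hd10]
          have h7 := mul_le_mul hd0 h4 (norm_nonneg _) hE0
          have h8 := mul_le_mul hd1 h5 (norm_nonneg _) hE0
          nlinarith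
    have h1 := hclose f Lg hLg0.ne' (fun m => (key m).1) (fun m θ => ?_) (fun m j θ => ?_)
    · rw [Matrix.det_zero, mul_zero, sub_zero] at h1
      exact h1
    · rw [Matrix.zero_apply, sub_zero, abs_div, abs_of_pos hLg0, div_lt_iff₀ hLg0]
      refine lt_of_le_of_lt ((key m).2.1 θ) ?_
      rw [mul_comm]
      exact hQL
    · rw [Matrix.zero_apply, Complex.ofReal_zero, mul_zero, sub_zero]
      exact (key m).2.2 j θ

end Pool.Agent.Q16.TS
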